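import Pool.Agent.Helper69.EK7.Field
import Pool.Agent.Helper69.EK3.Glue2

/-!
# Project EK7: radial retractions
-/

set_option autoImplicit false

open Complex Metric Set Filter Topology
open scoped Real ComplexConjugate

namespace Pool.Agent.Helper20.EK7

/-- radial retraction to the closed unit disc -/
noncomputable def prj (w : ℂ) : ℂ := w / ((max 1 ‖w‖ : ℝ) : ℂ)

/-- radial retraction to the closed disc of radius `6` -/
noncomputable def cut6 (t : ℂ) : ℂ := ((6 / max 6 ‖t‖ : ℝ) : ℂ) * t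

/-- inversion in the unit circle -/
noncomputable def iv (m : ℂ) : ℂ := m / ((‖m‖ ^ 2 : ℝ) : ℂ)

theorem prj_of_le {w : ℂ} (h : ‖w‖ ≤ 1) : prj w = w := by
  unfold prj
  rw [max_eq_left h, ofReal_one, div_one]

theorem one_le_mx (w : ℂ) : 1 ≤ max 1 ‖w‖ := le_max_left _ _

theorem mx_ne (w : ℂ) : ((max 1 ‖w‖ : ℝ) : ℂ) ≠ 0 :=
  Complex.ofReal_ne_zero.2 (zero_lt_one.trans_le (one_le_mx w)).ne'

theorem norm_prj_le (w : ℂ) : ‖prj w‖ ≤ 1 := by
  have h := one_le_mx w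
  unfold prj
  rw [norm_div, Complex.norm_real, Real.norm_of_nonneg (by linarith), div_le_one (by linarith)]
  exact le_max_right _ _

theorem prj_lip (w w' : ℂ) : ‖prj w - prj w'‖ ≤ 2 * ‖w - w'‖ := by
  have h := one_le_mx w
  have e : prj w - prj w' = ((w - w') + prj w' * (((max 1 ‖w'‖ - max 1 ‖w‖ : ℝ)) : ℂ)) /
      ((max 1 ‖w‖ : ℝ) : ℂ) := by
    have h1 := mx_ne w
    have h2 := mx_ne w'
    unfold prj
    push_cast at h1 h2 ⊢
    field_simp
    ring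
  rw [e, norm_div, Complex.norm_real, Real.norm_of_nonneg (by linarith),
    div_le_iff₀ (by linarith)]
  have h3 : |max 1 ‖w'‖ - max 1 ‖w‖| ≤ ‖w - w'‖ := by
    rw [max_comm 1, max_comm 1]
    refine (abs_max_sub_max_le_abs _ _ _).trans ?_
    rw [norm_sub_rev]
    exact abs_norm_sub_norm_le _ _
  have h4 : ‖(w - w') + prj w' * (((max 1 ‖w'‖ - max 1 ‖w‖ : ℝ)) : ℂ)‖ ≤
      ‖w - w'‖ + 1 * ‖w - w'‖ := by
    refine (norm_add_le _ _).trans ?_
    rw [norm_mul, Complex.norm_real, Real.norm_eq_abs]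
    have := mul_le_mul (norm_prj_le w') h3 (abs_nonneg _) zero_le_one
    linarith
  nlinarith [norm_nonneg (w - w')]

theorem prj_mul {u : ℂ} (hu : ‖u‖ = 1) (w : ℂ) : prj (u * w) = u * prj w := by
  unfold prj
  rw [norm_mul, hu, one_mul, mul_div_assoc]

theorem prj_conj (w : ℂ) : prj (conj w) = conj (prj w) := by
  unfold prj
  rw [norm_conj, map_div₀, conj_ofReal]

/-- the retraction does not increase the distance to points of the disc -/
theorem prj_dist {w e : ℂ} (he : ‖e‖ ≤ 1) : ‖prj w - e‖ ≤ ‖w - e‖ := by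
  rcases le_or_gt ‖w‖ 1 with h | h
  · rw [prj_of_le h]
  · have hn : 0 < ‖w‖ := by linarith
    have e1 : prj w = (((‖w‖)⁻¹ : ℝ) : ℂ) * w := by
      unfold prj
      rw [max_eq_right h.le, div_eq_inv_mul, ofReal_inv]
    have h1 : ‖w - e‖ ^ 2 = ‖w‖ ^ 2 - 2 * (w.re * e.re + w.im * e.im) + ‖e‖ ^ 2 := by
      rw [← normSq_eq_norm_sq, ← normSq_eq_norm_sq, ← normSq_eq_norm_sq, normSq_apply,
        normSq_apply, normSq_apply]
      simp only [sub_re, sub_im]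
      ring
    have h2 : ‖prj w - e‖ ^ 2 = 1 - 2 * (‖w‖)⁻¹ * (w.re * e.re + w.im * e.im) + ‖e‖ ^ 2 := by
      have h3 : ‖prj w‖ ^ 2 = 1 := by
        rw [e1, norm_mul, Complex.norm_real, Real.norm_of_nonneg (by positivity),
          inv_mul_cancel₀ hn.ne', one_pow]
      rw [← h3, ← normSq_eq_norm_sq, ← normSq_eq_norm_sq, ← normSq_eq_norm_sq, normSq_apply,
        normSq_apply, normSq_apply, e1]
      simp only [sub_re, sub_im, mul_re, mul_im, ofReal_re, ofReal_im]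
      ring
    have h4 : w.re * e.re + w.im * e.im ≤ ‖w‖ := by
      have h5 : (w * conj e).re ≤ ‖w * conj e‖ := Complex.re_le_norm _
      rw [norm_mul, norm_conj] at h5
      simp only [mul_re, conj_re, conj_im] at h5
      have h6 := mul_le_mul_of_nonneg_left he hn.le
      linarith
    have h7 : ‖prj w - e‖ ^ 2 ≤ ‖w - e‖ ^ 2 := by
      rw [h1, h2]
      have h8 : (‖w‖)⁻¹ ≤ 1 := inv_le_one_of_one_le₀ h.le
      have h9 : ‖w‖ * (‖w‖)⁻¹ = 1 := mul_inv_cancel₀ hn.ne'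
      have h10 := mul_le_mul_of_nonneg_left h4 (sub_nonneg.2 h8)
      nlinarith [sq_nonneg (‖w‖ - 1)]
    exact le_of_sq_le_sq h7 (norm_nonneg _)

theorem prj_dist_sq {w e : ℂ} (he : ‖e‖ ≤ 1) : ‖prj w - e‖ ^ 2 ≤ ‖w - e‖ ^ 2 :=
  pow_le_pow_left₀ (norm_nonneg _) (prj_dist he) 2

theorem cut6_eq (t : ℂ) : cut6 t = 6 * prj (t / 6) := by
  unfold cut6 prj
  have h1 : ‖t / 6‖ = ‖t‖ / 6 := by
    rw [norm_div]
    simp
  have h2 : max 1 (‖t‖ / 6) = max 6 ‖t‖ / 6 := by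
    rw [← max_div_div_right (by norm_num : (0:ℝ) ≤ 6)]
    norm_num
  have h3 : ((max 6 ‖t‖ : ℝ) : ℂ) ≠ 0 := by
    apply Complex.ofReal_ne_zero.2
    have : (6:ℝ) ≤ max 6 ‖t‖ := le_max_left _ _
    linarith
  rw [h1, h2]
  push_cast at h3 ⊢
  field_simp

theorem norm_cut6_le (t : ℂ) : ‖cut6 t‖ ≤ 6 := by
  rw [cut6_eq, norm_mul]
  have := norm_prj_le (t / 6)
  simp only [Complex.norm_ofNat]
  linarith

theorem cut6_of_le {t : ℂ} (h : ‖t‖ ≤ 6) : cut6 t = t := by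
  rw [cut6_eq, prj_of_le]
  · field_simp
  · rw [norm_div]
    simp only [Complex.norm_ofNat]
    linarith

theorem cut6_lip (t t' : ℂ) : ‖cut6 t - cut6 t'‖ ≤ 2 * ‖t - t'‖ := by
  rw [cut6_eq, cut6_eq, ← mul_sub, norm_mul]
  have h1 := prj_lip (t / 6) (t' / 6)
  rw [← sub_div, norm_div] at h1
  simp only [Complex.norm_ofNat] at h1 ⊢
  linarith

theorem cut6_mul {u : ℂ} (hu : ‖u‖ = 1) (t : ℂ) : cut6 (u * t) = u * cut6 t := by
  unfold cut6
  rw [norm_mul, hu, one_mul]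
  ring

theorem cut6_conj (t : ℂ) : cut6 (conj t) = conj (cut6 t) := by
  unfold cut6
  rw [norm_conj, map_mul, conj_ofReal]

theorem iv_eq {m : ℂ} (hm : m ≠ 0) : iv m = (conj m)⁻¹ := by
  have h1 : conj m ≠ 0 := (map_ne_zero _).2 hm
  unfold iv
  rw [ofReal_pow, ← Complex.mul_conj']
  field_simp

theorem norm_iv {m : ℂ} (hm : m ≠ 0) : ‖iv m‖ = ‖m‖⁻¹ := by
  rw [iv_eq hm, norm_inv, norm_conj]

theorem norm_iv_le {m : ℂ} (hm : 1 ≤ ‖m‖) : ‖iv m‖ ≤ 1 := by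
  have h0 : m ≠ 0 := norm_pos_iff.mp (zero_lt_one.trans_le hm)
  rw [norm_iv h0]
  exact inv_le_one_of_one_le₀ hm

theorem iv_of_one {m : ℂ} (hm : ‖m‖ = 1) : iv m = m := by
  unfold iv
  rw [hm]
  simp

theorem iv_mul {u : ℂ} (hu : ‖u‖ = 1) (m : ℂ) : iv (u * m) = u * iv m := by
  unfold iv
  rw [norm_mul, hu, one_mul, mul_div_assoc]

theorem iv_conj (m : ℂ) : iv (conj m) = conj (iv m) := by
  unfold iv
  rw [norm_conj, map_div₀, conj_ofReal]

theorem iv_lip {m m' : ℂ} (hm : 1 ≤ ‖m‖) (hm' : 1 ≤ ‖m'‖) : ‖iv m - iv m'‖ ≤ ‖m - m'‖ := by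
  have h0 : m ≠ 0 := norm_pos_iff.mp (zero_lt_one.trans_le hm)
  have h0' : m' ≠ 0 := norm_pos_iff.mp (zero_lt_one.trans_le hm')
  rw [iv_eq h0, iv_eq h0', inv_sub_inv ((map_ne_zero _).2 h0) ((map_ne_zero _).2 h0'), norm_div,
    norm_mul, norm_conj, norm_conj, ← map_sub, norm_conj, norm_sub_rev]
  rw [div_le_iff₀ (by positivity)]
  have h1 : 1 ≤ ‖m‖ * ‖m'‖ := by nlinarith
  nlinarith [norm_nonneg (m - m')]

end Pool.Agent.Helper20.EK7
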