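import Pool.Agent.Helper69.EK7.Jet

/-!
# Project EK7: identities of the field in the half angle ring

`S = sin (η/2)`, `C = cos (η/2)`, `P = S q`, `ρ = S² q'`, `σ = S (2X-1) + P`, `ω = 2S(X-1) + P`,
`κ = S²(1-4X²) + 2ρ - P²`, `ν = κ + 3σ²`, `E = (C - iS)²`.
-/

set_option autoImplicit false

open Complex Metric Set
open scoped Real ComplexConjugate

namespace Pool.Agent.Helper20.EK7

open Pool.Agent.Helper52.EK Pool.Agent.Helper69.EK7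

/-! ### pure algebra -/

section alg

variable {S C : ℝ} (h : S ^ 2 + C ^ 2 = 1)

/-- `E = (C - iS)²` -/
noncomputable def En (S C : ℝ) : ℂ := ((C : ℂ) - (S : ℂ) * I) ^ 2

/-- `σ`, `ω`, `κ`, `ν` -/
noncomputable def sgm (S : ℝ) (X P : ℂ) : ℂ := (S : ℂ) * (2 * X - 1) + P
noncomputable def omg (S : ℝ) (X P : ℂ) : ℂ := 2 * (S : ℂ) * (X - 1) + P
noncomputable def kpp (S : ℝ) (X P R : ℂ) : ℂ := (S : ℂ) ^ 2 * (1 - 4 * X ^ 2) + 2 * R - P ^ 2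
noncomputable def nuu (S : ℝ) (X P R : ℂ) : ℂ := kpp S X P R + 3 * sgm S X P ^ 2

theorem nuu_eq (S : ℝ) (X P R : ℂ) : nuu S X P R =
    4 * (S : ℂ) ^ 2 * ((2 * X - 1) * (X - 1)) + 6 * (S : ℂ) * (2 * X - 1) * P + 2 * P ^ 2 +
      2 * R := by
  unfold nuu kpp sgm
  ring

theorem En_eq (S C : ℝ) : En S C = ((C ^ 2 - S ^ 2 : ℝ) : ℂ) - ((2 * S * C : ℝ) : ℂ) * I := by
  unfold En
  push_cast
  linear_combination (S : ℂ) ^ 2 * I_sq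

include h in
theorem hc : (S : ℂ) ^ 2 + (C : ℂ) ^ 2 = 1 := by exact_mod_cast h

include h in
theorem norm_En : ‖En S C‖ = 1 := by
  unfold En
  rw [norm_pow, ← normSq_eq_norm_sq, normSq_apply]
  simp only [sub_re, sub_im, mul_re, mul_im, ofReal_re, ofReal_im, I_re, I_im]
  nlinarith

include h in
theorem En_conj : En S C * conj (En S C) = 1 := by
  rw [Complex.mul_conj', norm_En h]
  simp

theorem e0_En (S C : ℝ) : e0 (2 * S * C) (C ^ 2 - S ^ 2) = -(En S C) ^ 2 := by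
  unfold e0
  rw [En_eq]

include h in
theorem one_add_e0 : 1 + e0 (2 * S * C) (C ^ 2 - S ^ 2) = 4 * I * S * C * En S C := by
  have h1 := hc h
  rw [e0_En]
  unfold En
  have h2 : (1:ℂ) = ((S : ℂ) ^ 2 + (C : ℂ) ^ 2) ^ 2 := by rw [h1, one_pow]
  rw [h2]
  linear_combination (-(S : ℂ) ^ 4 * I ^ 2 + S ^ 4 + 2 * (S : ℂ) ^ 2 * C ^ 2) * I_sq

include h in
theorem ring_p {X Y P : ℂ} (hP : P = S * (Y / X)) :
    mX X Y (2 * S * C) (C ^ 2 - S ^ 2) + 1 = 4 * I * C * En S C * sgm S X P := by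
  unfold mX sgm
  rw [one_add_e0 h, hP]
  ring

include h in
theorem ring_m {X Y P : ℂ} (hP : P = S * (Y / X)) :
    mX X Y (2 * S * C) (C ^ 2 - S ^ 2) = 4 * I * C * En S C * sgm S X P - 1 := by
  rw [← ring_p h hP]
  ring

include h in
theorem ring_me {X Y P : ℂ} (hP : P = S * (Y / X)) :
    mX X Y (2 * S * C) (C ^ 2 - S ^ 2) - e0 (2 * S * C) (C ^ 2 - S ^ 2) =
      4 * I * C * En S C * omg S X P := by
  have h1 := one_add_e0 h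
  have h2 : mX X Y (2 * S * C) (C ^ 2 - S ^ 2) - e0 (2 * S * C) (C ^ 2 - S ^ 2) =
      (1 + e0 (2 * S * C) (C ^ 2 - S ^ 2)) * (2 * X - 2 + Y / X) := by
    unfold mX
    ring
  rw [h2, h1, hP]
  unfold omg
  ring

theorem ring_t {X Y Z P R : ℂ} (hP : P = S * (Y / X)) (hR : R = (S : ℂ) ^ 2 * (Z / X - (Y / X) ^ 2)) :
    tX X Y Z (2 * S * C) (C ^ 2 - S ^ 2) = -8 * C ^ 2 * En S C ^ 2 * kpp S X P R := by
  unfold tX kpp
  rw [e0_En, hP, hR]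
  push_cast
  ring

include h in
theorem ring_vs {X Y Z P R : ℂ} (hP : P = S * (Y / X))
    (hR : R = (S : ℂ) ^ 2 * (Z / X - (Y / X) ^ 2)) :
    -tX X Y Z (2 * S * C) (C ^ 2 - S ^ 2) -
      3 / 2 * (mX X Y (2 * S * C) (C ^ 2 - S ^ 2) + 1) ^ 2 =
      8 * C ^ 2 * En S C ^ 2 * nuu S X P R := by
  rw [ring_t hP hR, ring_p h hP]
  unfold nuu
  linear_combination (-24 * (C : ℂ) ^ 2 * En S C ^ 2 * sgm S X P ^ 2) * I_sq

include h in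
theorem norm_p {X Y P : ℂ} (hP : P = S * (Y / X)) :
    ‖mX X Y (2 * S * C) (C ^ 2 - S ^ 2) + 1‖ ^ 2 = 16 * C ^ 2 * ‖sgm S X P‖ ^ 2 := by
  rw [ring_p h hP, norm_mul, norm_mul, norm_mul, norm_mul, norm_En h, Complex.norm_I,
    Complex.norm_real, Real.norm_eq_abs, mul_pow, mul_pow, mul_pow, mul_pow, sq_abs]
  simp only [Complex.norm_ofNat]
  ring

/-- the 2-jet term of the field -/
noncomputable def Dj (g0 g1 d : ℝ) (m t : ℂ) : ℂ :=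
  ((g0 : ℂ) + g1 * conj (m + 1)) * (-t - 3 / 2 * (m + 1) ^ 2) / ((1 + d * ‖m + 1‖ ^ 2 : ℝ) : ℂ)

/-- the variable `v` -/
noncomputable def vv (g0 g1 d S C : ℝ) (X P R : ℂ) : ℂ :=
  (-2 * I * g0 * C * En S C * nuu S X P R - 8 * g1 * C ^ 2 * conj (sgm S X P) * nuu S X P R) /
    ((1 + 16 * d * C ^ 2 * ‖sgm S X P‖ ^ 2 : ℝ) : ℂ)

include h in
theorem ring_Dj {g0 g1 d : ℝ} {X Y Z P R : ℂ} (hP : P = S * (Y / X))
    (hR : R = (S : ℂ) ^ 2 * (Z / X - (Y / X) ^ 2)) :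
    Dj g0 g1 d (mX X Y (2 * S * C) (C ^ 2 - S ^ 2)) (tX X Y Z (2 * S * C) (C ^ 2 - S ^ 2)) =
      4 * I * C * En S C * vv g0 g1 d S C X P R := by
  unfold Dj vv
  rw [ring_vs h hP hR, norm_p h hP]
  have e1 : (1 + d * (16 * C ^ 2 * ‖sgm S X P‖ ^ 2) : ℝ) =
      1 + 16 * d * C ^ 2 * ‖sgm S X P‖ ^ 2 := by ring
  rw [e1, ring_p h hP]
  have hE := En_conj h
  simp only [map_mul, map_ofNat, conj_I, conj_ofReal]
  rw [mul_div_assoc']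
  congr 1
  linear_combination (8 * g0 * (C : ℂ) ^ 2 * En S C ^ 2 * nuu S X P R) * I_sq + (-32 * I * g1 *
    (C : ℂ) ^ 3 * En S C * conj (sgm S X P) * nuu S X P R) * hE

/-- the defining equation of `v` -/
theorem vv_con {g0 g1 d : ℝ} (hd : 0 ≤ d) (X P R : ℂ) :
    ((1 + 16 * d * C ^ 2 * ‖sgm S X P‖ ^ 2 : ℝ) : ℂ) * vv g0 g1 d S C X P R =
      -2 * I * g0 * C * En S C * nuu S X P R - 8 * g1 * C ^ 2 * conj (sgm S X P) * nuu S X P R := by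
  have h0 : (0:ℝ) < 1 + 16 * d * C ^ 2 * ‖sgm S X P‖ ^ 2 := by positivity
  unfold vv
  rw [mul_div_cancel₀]
  exact Complex.ofReal_ne_zero.2 h0.ne'

/-- the value of the field; `l` is a real number (with its sign) -/
noncomputable def Fv (gam c0 a b g0 g1 d l : ℝ) (m t : ℂ) : ℂ :=
  gam * m + c0 + l * (a * m + b) + Dj g0 g1 d m t

/-- `W = γ ω + v + l a σ` -/
noncomputable def WW (gam a l S : ℝ) (X P v : ℂ) : ℂ :=
  gam * omg S X P + v + l * a * sgm S X P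

include h in
theorem ring_B {gam c0 a b g0 g1 d l : ℝ} {X Y Z P R : ℂ} (hP : P = S * (Y / X))
    (hR : R = (S : ℂ) ^ 2 * (Z / X - (Y / X) ^ 2)) :
    Fv gam c0 a b g0 g1 d l (mX X Y (2 * S * C) (C ^ 2 - S ^ 2))
      (tX X Y Z (2 * S * C) (C ^ 2 - S ^ 2)) - e0 (2 * S * C) (C ^ 2 - S ^ 2) =
      4 * I * C * En S C * WW gam a l S X P (vv g0 g1 d S C X P R) +
        ((c0 + l * (b - a) : ℝ) : ℂ) + ((gam - 1 : ℝ) : ℂ) * e0 (2 * S * C) (C ^ 2 - S ^ 2) := by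
  have h1 := ring_me h hP
  have h2 := ring_p h hP
  unfold Fv WW
  rw [ring_Dj h hP hR]
  push_cast
  linear_combination (gam : ℂ) * h1 + (l : ℂ) * a * h2

/-- the loss in weight 4, as a function of real and imaginary parts -/
noncomputable def Tw (gam K S C W1 W2 : ℝ) : ℝ :=
  16 * C ^ 2 * (W1 ^ 2 + W2 ^ 2) +
    8 * K * C * (2 * S * C * W1 - (C ^ 2 - S ^ 2) * W2) +
    8 * (gam - 1) * C * (2 * S * C * W1 + (C ^ 2 - S ^ 2) * W2) +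
    (K ^ 2 + (gam - 1) ^ 2) * (S ^ 2 + C ^ 2) ^ 2 +
    2 * K * (gam - 1) * ((2 * S * C) ^ 2 - (C ^ 2 - S ^ 2) ^ 2)

include h in
theorem Tw_eq (gam K : ℝ) (W : ℂ) :
    ‖4 * I * C * En S C * W + (K : ℂ) + ((gam - 1 : ℝ) : ℂ) * e0 (2 * S * C) (C ^ 2 - S ^ 2)‖ ^ 2 =
      Tw gam K S C W.re W.im := by
  rw [e0_En, En_eq, ← normSq_eq_norm_sq, normSq_apply, pow_two (_ - _ * I)]
  simp only [add_re, add_im, sub_re, sub_im, neg_re, neg_im, mul_re, mul_im, ofReal_re, ofReal_im,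
    I_re, I_im, re_ofNat, im_ofNat]
  have hA : (2 * S * C) ^ 2 + (C ^ 2 - S ^ 2) ^ 2 = 1 := by
    have : (2 * S * C) ^ 2 + (C ^ 2 - S ^ 2) ^ 2 = (S ^ 2 + C ^ 2) ^ 2 := by ring
    rw [this, h, one_pow]
  unfold Tw
  rw [h]
  generalize hAd : 2 * S * C = A at hA ⊢
  generalize hBd : C ^ 2 - S ^ 2 = B at hA ⊢
  linear_combination (16 * C ^ 2 * (W.re ^ 2 + W.im ^ 2) +
    8 * (gam - 1) * C * (A * W.re + B * W.im) + (gam - 1) ^ 2 * (A ^ 2 + B ^ 2 + 1)) * hA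

include h in
/-- **the loss** -/
theorem ring_T {gam c0 a b g0 g1 d l : ℝ} {X Y Z P R : ℂ} (hP : P = S * (Y / X))
    (hR : R = (S : ℂ) ^ 2 * (Z / X - (Y / X) ^ 2)) :
    ‖Fv gam c0 a b g0 g1 d l (mX X Y (2 * S * C) (C ^ 2 - S ^ 2))
      (tX X Y Z (2 * S * C) (C ^ 2 - S ^ 2)) - e0 (2 * S * C) (C ^ 2 - S ^ 2)‖ ^ 2 =
      Tw gam (c0 + l * (b - a)) S C (WW gam a l S X P (vv g0 g1 d S C X P R)).re
        (WW gam a l S X P (vv g0 g1 d S C X P R)).im := by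
  rw [ring_B h hP hR, Tw_eq h]

include h in
/-- Kraus in the ring -/
theorem ring_kraus (hS : 0 ≤ S) (hSC : S ≤ C) {X Y Z P R : ℂ} (hP : P = S * (Y / X))
    (hR : R = (S : ℂ) ^ 2 * (Z / X - (Y / X) ^ 2))
    (hk : ‖tX X Y Z (2 * S * C) (C ^ 2 - S ^ 2)‖ ≤ 6) :
    0 ≤ 9 * (C ^ 4 + 4 * (S ^ 2 * C ^ 2) + 11 * S ^ 4) - 16 * ‖kpp S X P R‖ ^ 2 := by
  rw [ring_t hP hR, norm_mul, norm_mul, norm_mul, norm_neg, norm_pow, norm_pow, norm_En h,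
    Complex.norm_real, Real.norm_eq_abs, sq_abs, one_pow, mul_one] at hk
  simp only [Complex.norm_ofNat] at hk
  have hC2 : 1 / 2 ≤ C ^ 2 := by nlinarith
  have hC1 : C ^ 2 ≤ 1 := by nlinarith
  have k0 := norm_nonneg (kpp S X P R)
  have h1 : C ^ 2 * ‖kpp S X P R‖ ≤ 3 / 4 := by linarith
  have h2 : (C ^ 2 * ‖kpp S X P R‖) ^ 2 ≤ (3 / 4) ^ 2 :=
    pow_le_pow_left₀ (by positivity) h1 2
  have h3 : (C ^ 2) ^ 2 * (16 * ‖kpp S X P R‖ ^ 2) ≤ 9 := by nlinarith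
  obtain ⟨x, hx⟩ : ∃ x, x = C ^ 2 := ⟨_, rfl⟩
  have hS2 : S ^ 2 = 1 - x := by rw [hx]; linarith
  have e : 9 * (C ^ 4 + 4 * (S ^ 2 * C ^ 2) + 11 * S ^ 4) = 9 * (8 * x ^ 2 - 18 * x + 11) := by
    have e1 : C ^ 4 = x ^ 2 := by rw [hx]; ring
    have e2 : S ^ 4 = (1 - x) ^ 2 := by rw [← hS2]; ring
    rw [e1, e2, hS2, ← hx]
    ring
  rw [e]
  rw [← hx] at h3 hC2 hC1
  have hx0 : 0 < x := by linarith
  have h4 : 1 ≤ x ^ 2 * (8 * x ^ 2 - 18 * x + 11) := by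
    have : x ^ 2 * (8 * x ^ 2 - 18 * x + 11) - 1 = (x - 1) ^ 2 * ((2 * x - 1) * (4 * x + 1)) := by
      ring
    have h5 : 0 ≤ (x - 1) ^ 2 * ((2 * x - 1) * (4 * x + 1)) := by
      have : 0 ≤ 2 * x - 1 := by linarith
      positivity
    linarith
  have h6 : x ^ 2 * (16 * ‖kpp S X P R‖ ^ 2) ≤ x ^ 2 * (9 * (8 * x ^ 2 - 18 * x + 11)) := by
    linarith
  have h7 := le_of_mul_le_mul_left h6 (by positivity)
  linarith

end alg

end Pool.Agent.Helper20.EK7
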