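import Pool.Agent.Helper20.EK7.OneJet
import Pool.Agent.Helper20.EK7.RingAlg

/-!
# Project EK7: the general field is admissible

`Fd m t = gam m + c0 + l (a m + b) + Dj g0 g1 d m t`, `l = (1 - |m|²)/(p0 + p1 |m+1|² + p2 |m|²)`,
with different `a, b, p0, p1, p2` inside and outside the unit circle, retracted to the unit disc.
-/

set_option autoImplicit false

open Complex Metric Set Filter Topology
open scoped Real ComplexConjugate NNReal

namespace Pool.Agent.Helper20.EK7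

open Pool.Agent.Helper52.EK Pool.Agent.Helper69.EK3 Pool.Agent.Helper69.EK7

/-- the weak conditions on the outside piece -/
structure OutLipW (B : ℂ → ℂ → ℂ) (L : ℝ) : Prop where
  nonneg : 0 ≤ L
  lip : ∀ m m' t t' : ℂ, 1 ≤ ‖m‖ → 1 ≤ ‖m'‖ → ‖B m t - B m' t'‖ ≤ L * (‖m - m'‖ + ‖t - t'‖)
  rot : ∀ u m t : ℂ, ‖u‖ = 1 → 1 ≤ ‖m‖ →
    ‖B (u * m) (u ^ 2 * t) - B m t‖ ≤ L * ‖u - 1‖ * max 1 ‖B m t‖

theorem prj_lip_mul (w w' : ℂ) : ‖prj w - prj w'‖ * max 1 ‖w'‖ ≤ 2 * ‖w - w'‖ := by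
  have h := one_le_mx w'
  have e : prj w' - prj w = ((w' - w) + prj w * (((max 1 ‖w‖ - max 1 ‖w'‖ : ℝ)) : ℂ)) /
      ((max 1 ‖w'‖ : ℝ) : ℂ) := by
    have h1 := mx_ne w
    have h2 := mx_ne w'
    unfold prj
    push_cast at h1 h2 ⊢
    field_simp
    ring
  rw [norm_sub_rev, e, norm_div, Complex.norm_real, Real.norm_of_nonneg (by linarith),
    div_mul_cancel₀ _ (by linarith)]
  have h3 : |max 1 ‖w‖ - max 1 ‖w'‖| ≤ ‖w - w'‖ := by
    rw [max_comm 1, max_comm 1]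
    exact (abs_max_sub_max_le_abs _ _ _).trans (abs_norm_sub_norm_le _ _)
  refine (norm_add_le _ _).trans ?_
  rw [norm_mul, Complex.norm_real, Real.norm_eq_abs, norm_sub_rev w' w]
  have := mul_le_mul (norm_prj_le w) h3 (abs_nonneg _) zero_le_one
  linarith

/-- **gluing**, weak form -/
theorem glue3 {A B : ℂ → ℂ → ℂ} {L L' : ℝ} (hA : InLip A L) (hB : OutLipW B L')
    (hAB : ∀ m t : ℂ, ‖m‖ = 1 → A m t = B m t) :
    ∃ M : ℝ, GLip2 (fun m t => prj (if ‖m‖ ≤ 1 then A m t else B m t)) M := by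
  obtain ⟨M, hM⟩ : ∃ M, M = max L L' := ⟨_, rfl⟩
  have hA' : InLip A M := hA.mono (by rw [hM]; exact le_max_left _ _)
  have hLM : L' ≤ M := by rw [hM]; exact le_max_right _ _
  have hM0 := hA'.nonneg
  have hBl : ∀ m m' t t' : ℂ, 1 ≤ ‖m‖ → 1 ≤ ‖m'‖ →
      ‖B m t - B m' t'‖ ≤ M * (‖m - m'‖ + ‖t - t'‖) := fun m m' t t' h1 h2 =>
    (hB.lip m m' t t' h1 h2).trans (mul_le_mul_of_nonneg_right hLM (by positivity))
  have key : ∀ m m' t : ℂ, ‖m‖ ≤ 1 → 1 ≤ ‖m'‖ → ‖A m t - B m' t‖ ≤ M * ‖m - m'‖ := by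
    intro m m' t h h'
    obtain ⟨p, hp, he⟩ := exists_cross h h'
    have e : A m t - B m' t = (A m t - A p t) + (B p t - B m' t) := by rw [hAB p t hp]; ring
    rw [e]
    refine (norm_add_le _ _).trans ?_
    have h1 := hA'.lip m p t t h hp.le
    have h2 := hBl p m' t t hp.ge h'
    rw [sub_self, norm_zero, add_zero] at h1 h2
    rw [← he, mul_add]
    linarith
  set F : ℂ → ℂ → ℂ := fun m t => if ‖m‖ ≤ 1 then A m t else B m t with hF
  have lm : ∀ m m' t : ℂ, ‖F m t - F m' t‖ ≤ M * ‖m - m'‖ := by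
    intro m m' t
    simp only [hF]
    split_ifs with h h' h'
    · have h1 := hA'.lip m m' t t h h'
      rwa [sub_self, norm_zero, add_zero] at h1
    · exact key m m' t h (le_of_lt (not_le.mp h'))
    · rw [norm_sub_rev, norm_sub_rev m]
      exact key m' m t h' (le_of_lt (not_le.mp h))
    · have h1 := hBl m m' t t (le_of_lt (not_le.mp h)) (le_of_lt (not_le.mp h'))
      rwa [sub_self, norm_zero, add_zero] at h1
  have lt : ∀ m t t' : ℂ, ‖F m t - F m t'‖ ≤ M * ‖t - t'‖ := by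
    intro m t t'
    simp only [hF]
    split_ifs with h
    · have h1 := hA'.lip m m t t' h h
      rwa [sub_self, norm_zero, zero_add] at h1
    · have h1 := hBl m m t t' (le_of_lt (not_le.mp h)) (le_of_lt (not_le.mp h))
      rwa [sub_self, norm_zero, zero_add] at h1
  have lr : ∀ u m t : ℂ, ‖u‖ = 1 →
      ‖F (u * m) (u ^ 2 * t) - F m t‖ ≤ M * ‖u - 1‖ * max 1 ‖F m t‖ := by
    intro u m t hu
    simp only [hF]
    rw [norm_mul, hu, one_mul]
    have hn := norm_nonneg (u - 1)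
    split_ifs with h
    · have h1 := hA'.rot u m t hu h
      have h2 : 1 ≤ max 1 ‖A m t‖ := le_max_left _ _
      have h3 : 0 ≤ M * ‖u - 1‖ := by positivity
      nlinarith
    · refine (hB.rot u m t hu (le_of_lt (not_le.mp h))).trans ?_
      have h2 : 0 ≤ max 1 ‖B m t‖ := le_trans zero_le_one (le_max_left _ _)
      exact mul_le_mul_of_nonneg_right (mul_le_mul_of_nonneg_right hLM hn) h2
  refine ⟨2 * M, ?_⟩
  change GLip2 (fun m t => prj (F m t)) (2 * M)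
  refine ⟨fun m t => norm_prj_le _, fun m m' t => ?_, fun u m t hu => ?_, ?_⟩
  · have := (prj_lip (F m t) (F m' t)).trans
      (mul_le_mul_of_nonneg_left (lm m m' t) (by norm_num))
    linarith
  · have h1 := prj_lip_mul (F (u * m) (u ^ 2 * t)) (F m t)
    have h2 := lr u m t hu
    have h3 : 0 < max 1 ‖F m t‖ := lt_of_lt_of_le one_pos (le_max_left _ _)
    have h4 : ‖prj (F (u * m) (u ^ 2 * t)) - prj (F m t)‖ * max 1 ‖F m t‖ ≤
        (2 * M * ‖u - 1‖) * max 1 ‖F m t‖ := by linarith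
    exact le_of_mul_le_mul_right h4 h3
  · have hlip : ∀ p q : ℂ × ℂ, dist (prj (F p.1 p.2)) (prj (F q.1 q.2)) ≤
        (4 * M) * dist p q := by
      intro p q
      rw [dist_eq_norm]
      have h1 := prj_lip (F p.1 p.2) (F q.1 q.2)
      have e : F p.1 p.2 - F q.1 q.2 = (F p.1 p.2 - F q.1 p.2) + (F q.1 p.2 - F q.1 q.2) := by
        ring
      have h2 := norm_add_le (F p.1 p.2 - F q.1 p.2) (F q.1 p.2 - F q.1 q.2)
      rw [← e] at h2
      have h3 := lm p.1 q.1 p.2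
      have h4 := lt q.1 p.2 q.2
      have h5 : ‖p.1 - q.1‖ ≤ dist p q := by
        rw [← dist_eq_norm, Prod.dist_eq]
        exact le_max_left _ _
      have h6 : ‖p.2 - q.2‖ ≤ dist p q := by
        rw [← dist_eq_norm, Prod.dist_eq]
        exact le_max_right _ _
      have h7 := mul_le_mul_of_nonneg_left h5 hM0
      have h8 := mul_le_mul_of_nonneg_left h6 hM0
      linarith
    exact (LipschitzWith.of_dist_le_mul (K := ⟨4 * M, by positivity⟩) hlip).continuous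

/-! ### bounded outside pieces -/

/-- bounded outside pieces -/
def OutRE (R : ℂ → ℂ → ℂ) : Prop :=
  ∃ L M : ℝ, OutLip R L ∧ ∀ m t : ℂ, 1 ≤ ‖m‖ → ‖R m t‖ ≤ M

theorem OutRE.add {R R' : ℂ → ℂ → ℂ} (h : OutRE R) (h' : OutRE R') :
    OutRE (fun m t => R m t + R' m t) := by
  obtain ⟨L, M, h1, h2⟩ := h
  obtain ⟨L', M', h1', h2'⟩ := h'
  exact ⟨L + L', M + M', h1.add h1', fun m t hm =>
    (norm_add_le _ _).trans (add_le_add (h2 m t hm) (h2' m t hm))⟩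

theorem OutRE.smul {R : ℂ → ℂ → ℂ} (h : OutRE R) (c : ℂ) : OutRE (fun m t => c * R m t) := by
  obtain ⟨L, M, h1, h2⟩ := h
  refine ⟨‖c‖ * L, ‖c‖ * M, ⟨mul_nonneg (norm_nonneg _) h1.nonneg, fun m m' t t' g g' => ?_,
    fun u m t g g' => ?_⟩, fun m t hm => ?_⟩
  · rw [← mul_sub, norm_mul, mul_assoc]
    exact mul_le_mul_of_nonneg_left (h1.lip m m' t t' g g') (norm_nonneg _)
  · rw [← mul_sub, norm_mul, mul_assoc]
    exact mul_le_mul_of_nonneg_left (h1.rot u m t g g') (norm_nonneg _)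
  · rw [norm_mul]
    exact mul_le_mul_of_nonneg_left (h2 m t hm) (norm_nonneg _)

theorem OutRE.const (c : ℂ) : OutRE (fun _ _ => c) :=
  ⟨0, ‖c‖, ⟨le_rfl, fun _ _ _ _ _ _ => by simp, fun _ _ _ _ _ => by simp⟩, fun _ _ _ => le_rfl⟩

/-- a linear function plus a bounded piece -/
theorem OutRE.lin {R : ℂ → ℂ → ℂ} (h : OutRE R) (κ : ℂ) :
    ∃ L : ℝ, OutLipW (fun m t => κ * m + R m t) L := by
  obtain ⟨L, M, h1, h2⟩ := h
  have hL := h1.nonneg
  have hM : 0 ≤ M := (norm_nonneg _).trans (h2 1 0 (by simp))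
  have hk := norm_nonneg κ
  refine ⟨‖κ‖ + (1 + M + L), by positivity, fun m m' t t' g g' => ?_, fun u m t g g' => ?_⟩
  · have e : κ * m + R m t - (κ * m' + R m' t') = κ * (m - m') + (R m t - R m' t') := by ring
    rw [e]
    refine (norm_add_le _ _).trans ?_
    rw [norm_mul]
    have := h1.lip m m' t t' g g'
    have k1 := norm_nonneg (m - m')
    have k2 := norm_nonneg (t - t')
    nlinarith [mul_nonneg hk k2, mul_nonneg hM k1, mul_nonneg hM k2]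
  · have e : κ * (u * m) + R (u * m) (u ^ 2 * t) - (κ * m + R m t) =
        (κ * m) * (u - 1) + (R (u * m) (u ^ 2 * t) - R m t) := by ring
    rw [e]
    refine (norm_add_le _ _).trans ?_
    rw [norm_mul]
    have k1 := h1.rot u m t g g'
    have k2 := h2 m t g'
    have k3 : ‖κ * m‖ ≤ ‖κ * m + R m t‖ + M := by
      have : κ * m = (κ * m + R m t) - R m t := by ring
      calc ‖κ * m‖ = ‖(κ * m + R m t) - R m t‖ := by rw [← this]
        _ ≤ ‖κ * m + R m t‖ + ‖R m t‖ := norm_sub_le _ _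
        _ ≤ _ := by linarith
    obtain ⟨x, hx⟩ : ∃ x, x = max 1 ‖κ * m + R m t‖ := ⟨_, rfl⟩
    have x1 : 1 ≤ x := by rw [hx]; exact le_max_left _ _
    have x2 : ‖κ * m + R m t‖ ≤ x := by rw [hx]; exact le_max_right _ _
    rw [← hx]
    have hn := norm_nonneg (u - 1)
    have k4 : ‖κ * m‖ ≤ (1 + M) * x := by nlinarith
    have k5 := mul_le_mul_of_nonneg_right k4 hn
    have k6 : L * ‖u - 1‖ ≤ L * ‖u - 1‖ * x := by
      have : 0 ≤ L * ‖u - 1‖ := by positivity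
      nlinarith
    have k7 : 0 ≤ ‖κ‖ * ‖u - 1‖ * x := by positivity
    have e2 : (‖κ‖ + (1 + M + L)) * ‖u - 1‖ * x = ‖κ‖ * ‖u - 1‖ * x + (1 + M) * x * ‖u - 1‖ +
      L * ‖u - 1‖ * x := by ring
    rw [e2]
    linarith

/-- the outside one-jet piece is bounded -/
theorem OutL.bdd {a p0 p1 p2 : ℝ} (h : OutL a p0 p1 p2) (b : ℝ) :
    ∃ M : ℝ, ∀ m : ℂ, ‖Fq a b p0 p1 p2 m‖ ≤ M := by
  obtain ⟨c, hc, hl⟩ := h.low
  obtain ⟨CN, hCN⟩ : ∃ CN : ℝ, CN = |p0 + p1 + a| + |2 * p1| + |b| := ⟨_, rfl⟩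
  have hCN0 : 0 ≤ CN := by rw [hCN]; positivity
  refine ⟨CN / c, fun m' => ?_⟩
  have r2 : 0 < rF p0 p1 p2 m' := lt_of_lt_of_le (by positivity) (hl m')
  have hn' := norm_nonneg m'
  rw [Fq_div r2.ne', norm_div, Complex.norm_real, Real.norm_of_nonneg r2.le, div_le_iff₀ r2]
  have e : m' * ((rF p0 p1 p2 m' : ℝ) : ℂ) + ((1 - ‖m'‖ ^ 2 : ℝ) : ℂ) *
      ((a : ℂ) * m' + (b : ℂ)) = ((p0 + p1 + a : ℝ) : ℂ) * m' +
        ((2 * p1 * m'.re : ℝ) : ℂ) * m' + ((b * (1 - ‖m'‖ ^ 2) : ℝ) : ℂ) := by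
    rw [rF_eq, h.eq]
    push_cast
    ring
  rw [e]
  refine (norm_add₃_le).trans ?_
  rw [norm_mul, norm_mul, Complex.norm_real, Complex.norm_real, Complex.norm_real,
    Real.norm_eq_abs, Real.norm_eq_abs, Real.norm_eq_abs, abs_mul (2 * p1), abs_mul b]
  have w4 := Complex.abs_re_le_norm m'
  have g1 : |p0 + p1 + a| * ‖m'‖ ≤ |p0 + p1 + a| * (1 + ‖m'‖ ^ 2) :=
    mul_le_mul_of_nonneg_left (by nlinarith [sq_nonneg (‖m'‖ - 1)]) (abs_nonneg _)
  have g2 : |2 * p1| * |m'.re| * ‖m'‖ ≤ |2 * p1| * (1 + ‖m'‖ ^ 2) := by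
    have : |m'.re| * ‖m'‖ ≤ 1 + ‖m'‖ ^ 2 := by
      have := mul_le_mul_of_nonneg_right w4 hn'
      nlinarith
    have := mul_le_mul_of_nonneg_left this (abs_nonneg (2 * p1))
    linarith
  have g3 : |b| * |1 - ‖m'‖ ^ 2| ≤ |b| * (1 + ‖m'‖ ^ 2) :=
    mul_le_mul_of_nonneg_left (abs_le.2 ⟨by linarith [sq_nonneg ‖m'‖],
      by linarith [sq_nonneg ‖m'‖]⟩) (abs_nonneg _)
  have g4 : CN * (1 + ‖m'‖ ^ 2) ≤ CN / c * rF p0 p1 p2 m' := by
    rw [div_mul_eq_mul_div, le_div_iff₀ hc]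
    have := mul_le_mul_of_nonneg_left (hl m') hCN0
    linarith
  have g5 : |p0 + p1 + a| * (1 + ‖m'‖ ^ 2) + |2 * p1| * (1 + ‖m'‖ ^ 2) +
      |b| * (1 + ‖m'‖ ^ 2) = CN * (1 + ‖m'‖ ^ 2) := by
    rw [hCN]
    ring
  linarith

theorem OutL.outRE {a p0 p1 p2 : ℝ} (h : OutL a p0 p1 p2) (b : ℝ) :
    OutRE (fun m _ => Fq a b p0 p1 p2 m) := by
  obtain ⟨C, hC⟩ := h.outLip b
  obtain ⟨M, hM⟩ := h.bdd b
  exact ⟨C, M, hC, fun m _ _ => hM m⟩

/-- conditions on the outside denominator -/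
structure OutD (p0 p1 p2 : ℝ) : Prop where
  pos : 0 < p0 + p1 - |p1|
  pos' : 0 < p1 + p2 - |p1|

/-- the general outside one-jet piece -/
theorem Fq_split {a b p0 p1 p2 : ℝ} (hP : p1 + p2 ≠ 0) (m : ℂ) :
    Fq a b p0 p1 p2 m = ((1 - a / (p1 + p2) : ℝ) : ℂ) * m +
      (((a / (p1 + p2) - 1 : ℝ) : ℂ) * Fq (p1 + p2) 0 p0 p1 p2 m +
        Fq (p1 + p2) b p0 p1 p2 m) := by
  have hP' : ((p1 : ℂ) + (p2 : ℂ)) ≠ 0 := by exact_mod_cast hP
  unfold Fq
  push_cast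
  field_simp
  ring

end Pool.Agent.Helper20.EK7
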