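import Pool.Agent.Helper20.EK7.FieldG

/-!
# Project EK7: the general field is admissible, the 2-jet term
-/

set_option autoImplicit false

open Complex Metric Set Filter Topology
open scoped Real ComplexConjugate NNReal

namespace Pool.Agent.Helper20.EK7

open Pool.Agent.Helper52.EK Pool.Agent.Helper69.EK3 Pool.Agent.Helper69.EK7

/-! ### the inside 2-jet term -/

theorem Dj_contDiff {g0 g1 d : ℝ} (hd : 0 ≤ d) :
    ContDiff ℝ 1 (fun p : ℂ × ℂ => Dj g0 g1 d p.1 p.2) := by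
  have h1 : ContDiff ℝ 1 (fun p : ℂ × ℂ => p.1) := contDiff_fst
  have h2 : ContDiff ℝ 1 (fun p : ℂ × ℂ => p.2) := contDiff_snd
  have h3 : ContDiff ℝ 1 (fun p : ℂ × ℂ => p.1 + 1) := h1.add contDiff_const
  have h4 : ContDiff ℝ 1 (fun p : ℂ × ℂ => conj (p.1 + 1)) :=
    (Complex.conjCLE : ℂ ≃L[ℝ] ℂ).contDiff.comp h3
  have h5 : ContDiff ℝ 1 (fun p : ℂ × ℂ => ((1 + d * ‖p.1 + 1‖ ^ 2 : ℝ) : ℂ)) := by
    have h6 : ContDiff ℝ 1 (fun p : ℂ × ℂ => (1 + d * ‖p.1 + 1‖ ^ 2 : ℝ)) :=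
      contDiff_const.add (contDiff_const.mul (h3.norm_sq ℝ))
    exact (Complex.ofRealCLM : ℝ →L[ℝ] ℂ).contDiff.comp h6
  have h7 : ∀ p : ℂ × ℂ, ((1 + d * ‖p.1 + 1‖ ^ 2 : ℝ) : ℂ) ≠ 0 := by
    intro p
    apply Complex.ofReal_ne_zero.2
    positivity
  have h8 : ContDiff ℝ 1 (fun p : ℂ × ℂ => ((g0 : ℂ) + g1 * conj (p.1 + 1)) *
      (-p.2 - 3 / 2 * (p.1 + 1) ^ 2)) :=
    (contDiff_const.add (contDiff_const.mul h4)).mul
      ((h2.neg).sub (contDiff_const.mul (h3.pow 2)))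
  have h9 : (fun p : ℂ × ℂ => Dj g0 g1 d p.1 p.2) = fun p : ℂ × ℂ =>
      (((g0 : ℂ) + g1 * conj (p.1 + 1)) * (-p.2 - 3 / 2 * (p.1 + 1) ^ 2)) *
        (((1 + d * ‖p.1 + 1‖ ^ 2 : ℝ) : ℂ))⁻¹ := by
    funext p
    unfold Dj
    rw [div_eq_mul_inv]
  rw [h9]
  exact h8.mul (h5.inv h7)

theorem Dj_in {g0 g1 d : ℝ} (hd : 0 ≤ d) :
    ∃ L : ℝ, InLip (fun m t => Dj g0 g1 d m (cut6 t)) L := by
  obtain ⟨K, hK⟩ := lipOn_of_contDiff (Dj_contDiff (g0 := g0) (g1 := g1) hd)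
  exact ⟨_, inLip_of_on hK⟩

/-! ### the outside 2-jet term -/

/-- the numerator of the bounded part -/
noncomputable def nD (g0 g1 d : ℝ) (m τ : ℂ) : ℂ :=
  -g0 * τ + -g1 * τ * conj (m + 1) + (-(3 / 2 * g0 : ℝ) : ℂ) * (m + 1) ^ 2 +
    ((3 / 2 * (g1 / d) : ℝ) : ℂ) * (m + 1)

/-- the denominator -/
noncomputable def rD (d : ℝ) (m : ℂ) : ℝ := 1 + d * ‖m + 1‖ ^ 2

theorem rD_pos {d : ℝ} (hd : 0 < d) (m : ℂ) : 0 < rD d m := by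
  unfold rD
  positivity

theorem Dj_split {g0 g1 d : ℝ} (hd : 0 < d) (m τ : ℂ) :
    Dj g0 g1 d m τ = ((-(3 / 2 * (g1 / d)) : ℝ) : ℂ) * (m + 1) +
      nD g0 g1 d m τ / ((rD d m : ℝ) : ℂ) := by
  have h0 : ((rD d m : ℝ) : ℂ) ≠ 0 := Complex.ofReal_ne_zero.2 (rD_pos hd m).ne'
  have hd0 : (d : ℂ) ≠ 0 := Complex.ofReal_ne_zero.2 hd.ne'
  have e : Dj g0 g1 d m τ = (((g0 : ℂ) + g1 * conj (m + 1)) * (-τ - 3 / 2 * (m + 1) ^ 2)) /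
      ((rD d m : ℝ) : ℂ) := rfl
  have e2 : (((-(3 / 2 * (g1 / d)) : ℝ) : ℂ) * (m + 1) + nD g0 g1 d m τ / ((rD d m : ℝ) : ℂ)) *
      ((rD d m : ℝ) : ℂ) = ((-(3 / 2 * (g1 / d)) : ℝ) : ℂ) * (m + 1) * ((rD d m : ℝ) : ℂ) +
        nD g0 g1 d m τ := by
    rw [add_mul, div_mul_cancel₀ _ h0]
  rw [e, div_eq_iff h0, e2]
  have h1 : ((rD d m : ℝ) : ℂ) = 1 + d * ((m + 1) * conj (m + 1)) := by
    unfold rD
    rw [Complex.mul_conj']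
    push_cast
    ring
  rw [h1]
  unfold nD
  push_cast
  field_simp
  ring

theorem nD_lip {g0 g1 d : ℝ} (m m' : ℂ) {τ : ℂ} (hτ : ‖τ‖ ≤ 6) : ‖nD g0 g1 d m τ - nD g0 g1 d m' τ‖ ≤
    (6 * |g1| + 3 * |g0| + 3 / 2 * |g1 / d|) * ((1 + ‖m‖ + ‖m'‖) * ‖m - m'‖) := by
  have e : nD g0 g1 d m τ - nD g0 g1 d m' τ = ((-g1 : ℝ) : ℂ) * τ * conj (m - m') +
      ((-(3 / 2 * g0) : ℝ) : ℂ) * ((m + m' + 2) * (m - m')) +
        ((3 / 2 * (g1 / d) : ℝ) : ℂ) * (m - m') := by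
    unfold nD
    rw [map_add, map_add, map_sub]
    push_cast
    ring
  rw [e]
  refine (norm_add₃_le).trans ?_
  rw [norm_mul, norm_mul, norm_mul, norm_mul, norm_mul, norm_conj, Complex.norm_real,
    Complex.norm_real, Complex.norm_real, Real.norm_eq_abs, Real.norm_eq_abs, Real.norm_eq_abs,
    abs_neg, abs_neg, abs_mul, abs_mul (3 / 2) (g1 / d)]
  have h3 : |(3 / 2 : ℝ)| = 3 / 2 := abs_of_pos (by norm_num)
  rw [h3]
  have hn := norm_nonneg m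
  have hn' := norm_nonneg m'
  have ht := norm_nonneg (m - m')
  have k1 : ‖m + m' + 2‖ ≤ 2 * (1 + ‖m‖ + ‖m'‖) := by
    have := norm_add₃_le (a := m) (b := m') (c := (2:ℂ))
    simp only [Complex.norm_ofNat] at this
    linarith
  set T := (1 + ‖m‖ + ‖m'‖) * ‖m - m'‖ with hT
  have t1 : ‖m - m'‖ ≤ T := by rw [hT]; nlinarith [mul_nonneg hn ht, mul_nonneg hn' ht]
  have t2 : ‖m + m' + 2‖ * ‖m - m'‖ ≤ 2 * T := by
    rw [hT]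
    have := mul_le_mul_of_nonneg_right k1 ht
    linarith
  have hT0 : 0 ≤ T := ht.trans t1
  have g1' : |g1| * ‖τ‖ * ‖m - m'‖ ≤ |g1| * 6 * T :=
    mul_le_mul (mul_le_mul_of_nonneg_left hτ (abs_nonneg _)) t1 ht (by positivity)
  have g2' : 3 / 2 * |g0| * (‖m + m' + 2‖ * ‖m - m'‖) ≤ 3 / 2 * |g0| * (2 * T) :=
    mul_le_mul_of_nonneg_left t2 (by positivity)
  have g3' : 3 / 2 * |g1 / d| * ‖m - m'‖ ≤ 3 / 2 * |g1 / d| * T :=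
    mul_le_mul_of_nonneg_left t1 (by positivity)
  linarith

section
variable {g0 g1 d : ℝ} (hd : 0 < d)
include hd

theorem rD_lip (m m' : ℂ) : |rD d m - rD d m'| ≤ (2 * d) * ((1 + ‖m‖ + ‖m'‖) * ‖m - m'‖) := by
  have e : rD d m - rD d m' = d * (‖m + 1‖ ^ 2 - ‖m' + 1‖ ^ 2) := by
    unfold rD
    ring
  rw [e, abs_mul, abs_of_pos hd]
  have h1 := sq_lip (m + 1) (m' + 1)
  rw [add_sub_add_right_eq_sub] at h1
  have h2 := norm_add_le m 1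
  have h3 := norm_add_le m' 1
  rw [norm_one] at h2 h3
  have ht := norm_nonneg (m - m')
  have h4 : (‖m + 1‖ + ‖m' + 1‖) * ‖m - m'‖ ≤ (2 * (1 + ‖m‖ + ‖m'‖)) * ‖m - m'‖ :=
    mul_le_mul_of_nonneg_right (by linarith [norm_nonneg m, norm_nonneg m']) ht
  have h5 := mul_le_mul_of_nonneg_left (h1.trans h4) hd.le
  linarith

theorem rD_low : ∃ c : ℝ, 0 < c ∧ ∀ m : ℂ, c * (1 + ‖m‖ ^ 2) ≤ rD d m := by
  refine ⟨min (1 / 3) (d / 2), lt_min (by norm_num) (by linarith), fun m => ?_⟩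
  have h1 : ‖m‖ ≤ ‖m + 1‖ + 1 := by
    have := norm_sub_le (m + 1) 1
    rw [add_sub_cancel_right, norm_one] at this
    exact this
  have h2 : ‖m‖ ^ 2 ≤ 2 * ‖m + 1‖ ^ 2 + 2 := by
    nlinarith [norm_nonneg m, norm_nonneg (m + 1), sq_nonneg (‖m + 1‖ - 1)]
  have m1 := min_le_left (1 / 3) (d / 2)
  have m2 := min_le_right (1 / 3) (d / 2)
  have m0 : 0 < min (1 / 3) (d / 2) := lt_min (by norm_num) (by linarith)
  unfold rD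
  have h3 : min (1 / 3) (d / 2) * (1 + ‖m‖ ^ 2) ≤ min (1 / 3) (d / 2) *
      (3 + 2 * ‖m + 1‖ ^ 2) := mul_le_mul_of_nonneg_left (by linarith) m0.le
  have h4 := mul_le_mul_of_nonneg_right m2 (sq_nonneg ‖m + 1‖)
  linarith

theorem nD_le (m : ℂ) {τ : ℂ} (hτ : ‖τ‖ ≤ 6) : ‖nD g0 g1 d m τ‖ ≤
    ((6 * |g0| + 6 * |g1| + 3 / 2 * |g0| + 3 / 2 * |g1 / d|) * (1 + 1 / d)) * rD d m := by
  unfold nD
  have e : (-g0 * τ + -g1 * τ * conj (m + 1) + (-(3 / 2 * g0 : ℝ) : ℂ) * (m + 1) ^ 2 +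
      ((3 / 2 * (g1 / d) : ℝ) : ℂ) * (m + 1)) = ((-g0 : ℝ) : ℂ) * τ +
      ((-g1 : ℝ) : ℂ) * τ * conj (m + 1) + ((-(3 / 2 * g0) : ℝ) : ℂ) * (m + 1) ^ 2 +
      ((3 / 2 * (g1 / d) : ℝ) : ℂ) * (m + 1) := by
    push_cast
    ring
  rw [e]
  refine (norm_add_le _ _).trans ?_
  refine (add_le_add_left (norm_add₃_le) _).trans ?_
  rw [norm_mul, norm_mul, norm_mul, norm_mul, norm_mul, norm_pow, norm_conj, Complex.norm_real,
    Complex.norm_real, Complex.norm_real, Complex.norm_real, Real.norm_eq_abs, Real.norm_eq_abs,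
    Real.norm_eq_abs, Real.norm_eq_abs, abs_neg, abs_neg, abs_neg, abs_mul,
    abs_mul (3 / 2) (g1 / d)]
  have h3 : |(3 / 2 : ℝ)| = 3 / 2 := abs_of_pos (by norm_num)
  rw [h3]
  obtain ⟨s, hs⟩ : ∃ s, s = ‖m + 1‖ := ⟨_, rfl⟩
  have hs0 : 0 ≤ s := by rw [hs]; exact norm_nonneg _
  have hr : rD d m = 1 + d * s ^ 2 := by rw [hs]; rfl
  rw [hr, ← hs]
  have s1 : s ≤ 1 + s ^ 2 := by nlinarith [sq_nonneg (s - 1)]
  have s2 : 1 ≤ 1 + s ^ 2 := by nlinarith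
  have s3 : s ^ 2 ≤ 1 + s ^ 2 := by linarith
  have q1 : |g0| * ‖τ‖ ≤ |g0| * 6 * (1 + s ^ 2) := by
    have := mul_le_mul_of_nonneg_left hτ (abs_nonneg g0)
    have h5 : |g0| * 6 * 1 ≤ |g0| * 6 * (1 + s ^ 2) :=
      mul_le_mul_of_nonneg_left s2 (by positivity)
    linarith
  have q2 : |g1| * ‖τ‖ * s ≤ |g1| * 6 * (1 + s ^ 2) :=
    mul_le_mul (mul_le_mul_of_nonneg_left hτ (abs_nonneg _)) s1 hs0 (by positivity)
  have q3 : 3 / 2 * |g0| * s ^ 2 ≤ 3 / 2 * |g0| * (1 + s ^ 2) :=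
    mul_le_mul_of_nonneg_left s3 (by positivity)
  have q4 : 3 / 2 * |g1 / d| * s ≤ 3 / 2 * |g1 / d| * (1 + s ^ 2) :=
    mul_le_mul_of_nonneg_left s1 (by positivity)
  have q5 : 1 + s ^ 2 ≤ (1 + 1 / d) * (1 + d * s ^ 2) := by
    have : (1 + 1 / d) * (1 + d * s ^ 2) = 1 + s ^ 2 + (1 / d + d * s ^ 2) := by
      field_simp
      ring
    rw [this]
    have : 0 ≤ 1 / d + d * s ^ 2 := by positivity
    linarith
  have q6 := mul_le_mul_of_nonneg_left q5 (show 0 ≤ 6 * |g0| + 6 * |g1| + 3 / 2 * |g0| +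
    3 / 2 * |g1 / d| by positivity)
  have q7 : (6 * |g0| + 6 * |g1| + 3 / 2 * |g0| + 3 / 2 * |g1 / d|) * (1 + s ^ 2) =
    |g0| * 6 * (1 + s ^ 2) + |g1| * 6 * (1 + s ^ 2) + 3 / 2 * |g0| * (1 + s ^ 2) +
      3 / 2 * |g1 / d| * (1 + s ^ 2) := by ring
  linarith

/-- the bounded part of the outside 2-jet term -/
theorem nD_outRE : OutRE (fun m t => nD g0 g1 d m (cut6 t) / ((rD d m : ℝ) : ℂ)) := by
  obtain ⟨c, hc, hl⟩ := rD_low hd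
  obtain ⟨CN, hCN⟩ : ∃ CN : ℝ, CN = 6 * |g1| + 3 * |g0| + 3 / 2 * |g1 / d| := ⟨_, rfl⟩
  have hCN0 : 0 ≤ CN := by rw [hCN]; positivity
  obtain ⟨Bd, hBd⟩ : ∃ Bd : ℝ, Bd = (6 * |g0| + 6 * |g1| + 3 / 2 * |g0| + 3 / 2 * |g1 / d|) *
    (1 + 1 / d) := ⟨_, rfl⟩
  have hBd0 : 0 ≤ Bd := by rw [hBd]; positivity
  obtain ⟨C, hC⟩ : ∃ C : ℝ, C = 4 * (CN + Bd * (2 * d)) / c := ⟨_, rfl⟩
  have hC0 : 0 ≤ C := by rw [hC]; positivity
  -- decay Lipschitz bound in `m`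
  have k1 : ∀ (m m' τ : ℂ), ‖τ‖ ≤ 6 → ‖m'‖ ≤ ‖m‖ → (1 + ‖m‖) *
      ‖nD g0 g1 d m τ / ((rD d m : ℝ) : ℂ) - nD g0 g1 d m' τ / ((rD d m' : ℝ) : ℂ)‖ ≤
      C * ‖m - m'‖ := by
    intro m m' τ hτ hm
    rw [hC]
    exact rat_lip hc hCN0 (by linarith) hBd0 (norm_nonneg _) (norm_nonneg _) hm
      (by rw [hCN]; exact nD_lip m m' hτ) (rD_lip hd m m') (hl m) (rD_pos hd m')
      (by rw [hBd]; exact nD_le hd m' hτ)
  have k1' : ∀ (m m' τ : ℂ), ‖τ‖ ≤ 6 →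
      ‖nD g0 g1 d m τ / ((rD d m : ℝ) : ℂ) - nD g0 g1 d m' τ / ((rD d m' : ℝ) : ℂ)‖ ≤
      C * ‖m - m'‖ := by
    intro m m' τ hτ
    have h3 := norm_nonneg (nD g0 g1 d m τ / ((rD d m : ℝ) : ℂ) -
      nD g0 g1 d m' τ / ((rD d m' : ℝ) : ℂ))
    rcases le_total ‖m'‖ ‖m‖ with h1 | h1
    · have h2 := k1 m m' τ hτ h1
      nlinarith [norm_nonneg m]
    · have h2 := k1 m' m τ hτ h1
      rw [norm_sub_rev, norm_sub_rev m]
      rw [norm_sub_rev] at h3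
      nlinarith [norm_nonneg m']
  -- Lipschitz bound in `τ`
  obtain ⟨D, hD⟩ : ∃ D : ℝ, D = (|g0| + |g1|) * (1 + 1 / d) := ⟨_, rfl⟩
  have hD0 : 0 ≤ D := by rw [hD]; positivity
  have k2 : ∀ (m τ τ' : ℂ),
      ‖nD g0 g1 d m τ / ((rD d m : ℝ) : ℂ) - nD g0 g1 d m τ' / ((rD d m : ℝ) : ℂ)‖ ≤
      D * ‖τ - τ'‖ := by
    intro m τ τ'
    have hr := rD_pos hd m
    rw [← sub_div, norm_div, Complex.norm_real, Real.norm_of_nonneg hr.le, div_le_iff₀ hr]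
    have e : nD g0 g1 d m τ - nD g0 g1 d m τ' =
        (((-g0 : ℝ) : ℂ) + ((-g1 : ℝ) : ℂ) * conj (m + 1)) * (τ - τ') := by
      unfold nD
      push_cast
      ring
    rw [e, norm_mul]
    have h1 : ‖((-g0 : ℝ) : ℂ) + ((-g1 : ℝ) : ℂ) * conj (m + 1)‖ ≤ |g0| + |g1| * ‖m + 1‖ := by
      refine (norm_add_le _ _).trans ?_
      rw [norm_mul, norm_conj, Complex.norm_real, Complex.norm_real, Real.norm_eq_abs,
        Real.norm_eq_abs, abs_neg, abs_neg]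
    obtain ⟨s, hs⟩ : ∃ s, s = ‖m + 1‖ := ⟨_, rfl⟩
    have hs0 : 0 ≤ s := by rw [hs]; exact norm_nonneg _
    have hr' : rD d m = 1 + d * s ^ 2 := by rw [hs]; rfl
    rw [← hs] at h1
    have s1 : s ≤ 1 + s ^ 2 := by nlinarith [sq_nonneg (s - 1)]
    have s2 : 1 ≤ 1 + s ^ 2 := by nlinarith
    have q5 : 1 + s ^ 2 ≤ (1 + 1 / d) * (1 + d * s ^ 2) := by
      have : (1 + 1 / d) * (1 + d * s ^ 2) = 1 + s ^ 2 + (1 / d + d * s ^ 2) := by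
        field_simp
        ring
      rw [this]
      have : 0 ≤ 1 / d + d * s ^ 2 := by positivity
      linarith
    have h2 : |g0| + |g1| * s ≤ D * rD d m := by
      have g1' := mul_le_mul_of_nonneg_left s2 (abs_nonneg g0)
      have g2' := mul_le_mul_of_nonneg_left s1 (abs_nonneg g1)
      have g3' := mul_le_mul_of_nonneg_left q5 (show 0 ≤ |g0| + |g1| by positivity)
      rw [hD, hr']
      linarith
    have h3 := mul_le_mul_of_nonneg_right (h1.trans h2) (norm_nonneg (τ - τ'))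
    linarith
  refine ⟨C + 12 * D, Bd, ⟨by positivity, fun m m' t t' hm hm' => ?_, fun u m t hu hm => ?_⟩,
    fun m t hm => ?_⟩
  · have e : nD g0 g1 d m (cut6 t) / ((rD d m : ℝ) : ℂ) -
        nD g0 g1 d m' (cut6 t') / ((rD d m' : ℝ) : ℂ) =
        (nD g0 g1 d m (cut6 t) / ((rD d m : ℝ) : ℂ) -
          nD g0 g1 d m' (cut6 t) / ((rD d m' : ℝ) : ℂ)) +
        (nD g0 g1 d m' (cut6 t) / ((rD d m' : ℝ) : ℂ) -
          nD g0 g1 d m' (cut6 t') / ((rD d m' : ℝ) : ℂ)) := by ring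
    rw [e]
    refine (norm_add_le _ _).trans ?_
    have h1 := k1' m m' (cut6 t) (norm_cut6_le t)
    have h2 := k2 m' (cut6 t) (cut6 t')
    have h3 := mul_le_mul_of_nonneg_left (cut6_lip t t') hD0
    have n1 := norm_nonneg (m - m')
    have n2 := norm_nonneg (t - t')
    nlinarith [mul_nonneg hC0 n2, mul_nonneg hD0 n1, mul_nonneg hD0 n2]
  · have hu2 : ‖u ^ 2‖ = 1 := by rw [norm_pow, hu, one_pow]
    have e0 : ‖u * m‖ = ‖m‖ := by rw [norm_mul, hu, one_mul]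
    have e : nD g0 g1 d (u * m) (cut6 (u ^ 2 * t)) / ((rD d (u * m) : ℝ) : ℂ) -
        nD g0 g1 d m (cut6 t) / ((rD d m : ℝ) : ℂ) =
        (nD g0 g1 d (u * m) (cut6 (u ^ 2 * t)) / ((rD d (u * m) : ℝ) : ℂ) -
          nD g0 g1 d m (cut6 (u ^ 2 * t)) / ((rD d m : ℝ) : ℂ)) +
        (nD g0 g1 d m (cut6 (u ^ 2 * t)) / ((rD d m : ℝ) : ℂ) -
          nD g0 g1 d m (cut6 t) / ((rD d m : ℝ) : ℂ)) := by ring
    rw [e]
    refine (norm_add_le _ _).trans ?_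
    have h1 := k1 (u * m) m (cut6 (u ^ 2 * t)) (norm_cut6_le _) (by rw [e0])
    have e1 : u * m - m = (u - 1) * m := by ring
    rw [e0, e1, norm_mul] at h1
    have h4 : 0 < 1 + ‖m‖ := by positivity
    have h5 : C * (‖u - 1‖ * ‖m‖) ≤ (1 + ‖m‖) * (C * ‖u - 1‖) := by
      have := mul_nonneg hC0 (norm_nonneg (u - 1))
      nlinarith
    have h6 := le_of_mul_le_mul_left (h1.trans h5) h4
    have h2 := k2 m (cut6 (u ^ 2 * t)) (cut6 t)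
    rw [cut6_mul hu2] at h2
    have e2 : u ^ 2 * cut6 t - cut6 t = (u ^ 2 - 1) * cut6 t := by ring
    rw [e2, norm_mul] at h2
    have h7 : ‖u ^ 2 - 1‖ * ‖cut6 t‖ ≤ (2 * ‖u - 1‖) * 6 :=
      mul_le_mul (norm_sq_sub_one_le hu) (norm_cut6_le t) (norm_nonneg _)
        (by have := norm_nonneg (u - 1); linarith)
    have h8 := mul_le_mul_of_nonneg_left h7 hD0
    rw [cut6_mul hu2] at h6 ⊢
    linarith
  · have hr := rD_pos hd m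
    rw [norm_div, Complex.norm_real, Real.norm_of_nonneg hr.le, div_le_iff₀ hr, hBd]
    exact nD_le hd m (norm_cut6_le t)

end

/-! ### the field -/

/-- one side of the field -/
noncomputable def Fd (gam c0 g0 g1 d a b p0 p1 p2 : ℝ) (m t : ℂ) : ℂ :=
  Fv gam c0 a b g0 g1 d ((1 - ‖m‖ ^ 2) / rF p0 p1 p2 m) m t

theorem Fd_eq (gam c0 g0 g1 d a b p0 p1 p2 : ℝ) (m t : ℂ) :
    Fd gam c0 g0 g1 d a b p0 p1 p2 m t =
      Fq a b p0 p1 p2 m + (((gam - 1 : ℝ) : ℂ) * m + (c0 : ℂ)) + Dj g0 g1 d m t := by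
  unfold Fd Fv Fq
  push_cast
  ring

theorem lin_in (c c0 : ℂ) : InLip (fun m _ => c * m + c0) ‖c‖ := by
  refine ⟨norm_nonneg _, fun m m' t t' _ _ => ?_, fun u m t hu hm => ?_⟩
  · have e : c * m + c0 - (c * m' + c0) = c * (m - m') := by ring
    rw [e, norm_mul]
    exact mul_le_mul_of_nonneg_left (by linarith [norm_nonneg (t - t')]) (norm_nonneg _)
  · have e : c * (u * m) + c0 - (c * m + c0) = c * ((u - 1) * m) := by ring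
    rw [e, norm_mul, norm_mul]
    have := mul_le_mul_of_nonneg_left hm (norm_nonneg (u - 1))
    exact mul_le_mul_of_nonneg_left (by linarith) (norm_nonneg _)

theorem Fd_in (gam c0 g0 g1 d a b p0 p1 p2 : ℝ) (hd : 0 < d) (h : InL p0 p1 p2) :
    ∃ L : ℝ, InLip (fun m t => Fd gam c0 g0 g1 d a b p0 p1 p2 m (cut6 t)) L := by
  obtain ⟨L1, h1⟩ := h.inLip a b
  obtain ⟨L2, h2⟩ := Dj_in (g0 := g0) (g1 := g1) hd.le
  have h3 := (h1.add (lin_in ((gam - 1 : ℝ) : ℂ) (c0 : ℂ))).add h2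
  refine ⟨L1 + ‖((gam - 1 : ℝ) : ℂ)‖ + L2, ?_⟩
  have e : (fun m t => Fd gam c0 g0 g1 d a b p0 p1 p2 m (cut6 t)) =
      fun m t => Fq a b p0 p1 p2 m + (((gam - 1 : ℝ) : ℂ) * m + (c0 : ℂ)) +
        Dj g0 g1 d m (cut6 t) := by
    funext m t
    exact Fd_eq gam c0 g0 g1 d a b p0 p1 p2 m (cut6 t)
  rw [e]
  exact h3

theorem Fd_out (gam c0 g0 g1 d a b p0 p1 p2 : ℝ) (hd : 0 < d) (h : OutD p0 p1 p2) :
    ∃ L : ℝ, OutLipW (fun m t => Fd gam c0 g0 g1 d a b p0 p1 p2 m (cut6 t)) L := by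
  have hP : p1 + p2 ≠ 0 := by
    have := h.pos'
    have := abs_nonneg p1
    linarith
  have hL : OutL (p1 + p2) p0 p1 p2 := ⟨rfl, h.pos, h.pos'⟩
  have r1 := (((hL.outRE 0).smul ((a / (p1 + p2) - 1 : ℝ) : ℂ)).add (hL.outRE b)).add
    ((OutRE.const ((c0 - 3 / 2 * (g1 / d) : ℝ) : ℂ)).add (nD_outRE (g0 := g0) (g1 := g1) hd))
  obtain ⟨L, hL'⟩ := r1.lin ((gam - a / (p1 + p2) - 3 / 2 * (g1 / d) : ℝ) : ℂ)
  refine ⟨L, ?_⟩
  have e : (fun m t => Fd gam c0 g0 g1 d a b p0 p1 p2 m (cut6 t)) =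
      fun m t => ((gam - a / (p1 + p2) - 3 / 2 * (g1 / d) : ℝ) : ℂ) * m +
        ((((a / (p1 + p2) - 1 : ℝ) : ℂ) * Fq (p1 + p2) 0 p0 p1 p2 m +
          Fq (p1 + p2) b p0 p1 p2 m) + (((c0 - 3 / 2 * (g1 / d) : ℝ) : ℂ) +
            nD g0 g1 d m (cut6 t) / ((rD d m : ℝ) : ℂ))) := by
    funext m t
    rw [Fd_eq, Fq_split hP, Dj_split hd]
    push_cast
    ring
  rw [e]
  exact hL'

/-- **the two-sided field**, retracted to the unit disc -/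
noncomputable def GF (gam c0 g0 g1 d a b p0 p1 p2 a' b' q0 q1 q2 : ℝ) (m t : ℂ) : ℂ :=
  prj (if ‖m‖ ≤ 1 then Fd gam c0 g0 g1 d a b p0 p1 p2 m (cut6 t)
    else Fd gam c0 g0 g1 d a' b' q0 q1 q2 m (cut6 t))

theorem Fd_circle {gam c0 g0 g1 d a b p0 p1 p2 a' b' q0 q1 q2 : ℝ} {m : ℂ} (hm : ‖m‖ = 1)
    (t : ℂ) : Fd gam c0 g0 g1 d a b p0 p1 p2 m t = Fd gam c0 g0 g1 d a' b' q0 q1 q2 m t := by
  rw [Fd_eq, Fd_eq, Fq_circle hm, Fq_circle hm]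

theorem GF_glip (gam c0 g0 g1 d a b p0 p1 p2 a' b' q0 q1 q2 : ℝ) (hd : 0 < d)
    (h : InL p0 p1 p2) (h' : OutD q0 q1 q2) :
    ∃ L : ℝ, GLip2 (GF gam c0 g0 g1 d a b p0 p1 p2 a' b' q0 q1 q2) L := by
  obtain ⟨L1, h1⟩ := Fd_in gam c0 g0 g1 d a b p0 p1 p2 hd h
  obtain ⟨L2, h2⟩ := Fd_out gam c0 g0 g1 d a' b' q0 q1 q2 hd h'
  exact glue3 h1 h2 fun m t hm => Fd_circle hm (cut6 t)

theorem Dj_conj (g0 g1 d : ℝ) (m t : ℂ) :
    Dj g0 g1 d (conj m) (conj t) = conj (Dj g0 g1 d m t) := by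
  unfold Dj
  have e : conj m + 1 = conj (m + 1) := by simp
  rw [e, norm_conj]
  simp only [map_div₀, map_mul, map_add, map_sub, map_neg, map_pow, conj_ofReal, map_one,
    map_ofNat, Complex.conj_conj]

theorem Fd_conj (gam c0 g0 g1 d a b p0 p1 p2 : ℝ) (m t : ℂ) :
    Fd gam c0 g0 g1 d a b p0 p1 p2 (conj m) (conj t) =
      conj (Fd gam c0 g0 g1 d a b p0 p1 p2 m t) := by
  rw [Fd_eq, Fd_eq, Fq_conj, Dj_conj]
  simp only [map_add, map_mul, conj_ofReal]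

theorem GF_conj (gam c0 g0 g1 d a b p0 p1 p2 a' b' q0 q1 q2 : ℝ) (m t : ℂ) :
    GF gam c0 g0 g1 d a b p0 p1 p2 a' b' q0 q1 q2 (conj m) (conj t) =
      conj (GF gam c0 g0 g1 d a b p0 p1 p2 a' b' q0 q1 q2 m t) := by
  unfold GF
  rw [norm_conj, cut6_conj, ← prj_conj]
  split_ifs
  · rw [Fd_conj]
  · rw [Fd_conj]

theorem GF_in {gam c0 g0 g1 d a b p0 p1 p2 a' b' q0 q1 q2 : ℝ} {m t : ℂ} (hm : ‖m‖ ≤ 1)
    (ht : ‖t‖ ≤ 6) {e : ℂ} (he : ‖e‖ = 1) :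
    ‖GF gam c0 g0 g1 d a b p0 p1 p2 a' b' q0 q1 q2 m t - e‖ ^ 2 ≤
      ‖Fd gam c0 g0 g1 d a b p0 p1 p2 m t - e‖ ^ 2 := by
  unfold GF
  rw [if_pos hm, cut6_of_le ht]
  exact prj_dist_sq he.le

theorem GF_out {gam c0 g0 g1 d a b p0 p1 p2 a' b' q0 q1 q2 : ℝ} {m t : ℂ} (hm : 1 ≤ ‖m‖)
    (ht : ‖t‖ ≤ 6) {e : ℂ} (he : ‖e‖ = 1) :
    ‖GF gam c0 g0 g1 d a b p0 p1 p2 a' b' q0 q1 q2 m t - e‖ ^ 2 ≤
      ‖Fd gam c0 g0 g1 d a' b' q0 q1 q2 m t - e‖ ^ 2 := by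
  rcases eq_or_lt_of_le hm with h | h
  · refine (GF_in h.symm.le ht he).trans (le_of_eq ?_)
    rw [Fd_circle h.symm]
  · unfold GF
    rw [if_neg (not_le.2 h), cut6_of_le ht]
    exact prj_dist_sq he.le

end Pool.Agent.Helper20.EK7
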