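import Pool.Agent.Helper20.EK7.Glue

/-!
# Project EK7: the one-jet pieces `m + (1 - |m|²)/ρ (a m + b)` without the condition `|G| ≤ 1`
-/

set_option autoImplicit false

open Complex Metric Set Filter Topology
open scoped Real ComplexConjugate NNReal

namespace Pool.Agent.Helper20.EK7

open Pool.Agent.Helper52.EK Pool.Agent.Helper69.EK3 Pool.Agent.Helper69.EK7

/-- conditions on the inside denominator -/
structure InL (p0 p1 p2 : ℝ) : Prop where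
  pos : 0 < p0 + p1 - |2 * p1|
  pos' : 0 < p0 + p1 - |2 * p1| + (p1 + p2)

/-- conditions on the outside denominator -/
structure OutL (a p0 p1 p2 : ℝ) : Prop where
  eq : p1 + p2 = a
  pos : 0 < p0 + p1 - |p1|
  pos' : 0 < p1 + p2 - |p1|

theorem InL.low {p0 p1 p2 : ℝ} (h : InL p0 p1 p2) :
    ∃ c : ℝ, 0 < c ∧ ∀ m : ℂ, ‖m‖ ≤ 1 → c * (1 + ‖m‖ ^ 2) ≤ rF p0 p1 p2 m := by
  have k1 := h.pos
  have k2 := h.pos'
  refine ⟨min (p0 + p1 - |2 * p1|) (p0 + p1 - |2 * p1| + (p1 + p2)) / 2,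
    by have := lt_min k1 k2; linarith, fun m hm => ?_⟩
  have hx := (Complex.abs_re_le_norm m).trans hm
  have h0 : 0 ≤ ‖m‖ ^ 2 := sq_nonneg _
  have h1 : ‖m‖ ^ 2 ≤ 1 := by nlinarith [norm_nonneg m]
  have h2 : |2 * p1 * m.re| ≤ |2 * p1| := by
    rw [abs_mul]
    have := mul_le_mul_of_nonneg_left hx (abs_nonneg (2 * p1))
    linarith
  have h3 := (abs_le.1 h2).1
  have m1 := min_le_left (p0 + p1 - |2 * p1|) (p0 + p1 - |2 * p1| + (p1 + p2))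
  have m2 := min_le_right (p0 + p1 - |2 * p1|) (p0 + p1 - |2 * p1| + (p1 + p2))
  have m3 := lt_min k1 k2
  set d := min (p0 + p1 - |2 * p1|) (p0 + p1 - |2 * p1| + (p1 + p2))
  rw [rF_eq]
  have h4 : d ≤ (p0 + p1 - |2 * p1|) + (p1 + p2) * ‖m‖ ^ 2 := by
    nlinarith
  nlinarith

theorem OutL.low {a p0 p1 p2 : ℝ} (h : OutL a p0 p1 p2) :
    ∃ c : ℝ, 0 < c ∧ ∀ m : ℂ, c * (1 + ‖m‖ ^ 2) ≤ rF p0 p1 p2 m := by
  have k1 := h.pos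
  have k2 := h.pos'
  refine ⟨min (p0 + p1 - |p1|) (p1 + p2 - |p1|), lt_min k1 k2, fun m => ?_⟩
  have hx := Complex.abs_re_le_norm m
  have h0 : 0 ≤ ‖m‖ ^ 2 := sq_nonneg _
  have h1 : |m.re| ≤ (1 + ‖m‖ ^ 2) / 2 := by nlinarith [sq_nonneg (‖m‖ - 1)]
  have h2 : |2 * p1 * m.re| ≤ |p1| * (1 + ‖m‖ ^ 2) := by
    rw [abs_mul, abs_mul, abs_two]
    have := mul_le_mul_of_nonneg_left h1 (abs_nonneg p1)
    linarith
  have h3 := (abs_le.1 h2).1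
  have m1 := min_le_left (p0 + p1 - |p1|) (p1 + p2 - |p1|)
  have m2 := min_le_right (p0 + p1 - |p1|) (p1 + p2 - |p1|)
  rw [rF_eq]
  have m3 := mul_le_mul_of_nonneg_right m2 h0
  linarith

/-- the inside piece is Lipschitz -/
theorem InL.lipF {p0 p1 p2 : ℝ} (h : InL p0 p1 p2) (a b : ℝ) : ∃ C : ℝ, 0 ≤ C ∧
    ∀ m m' : ℂ, ‖m‖ ≤ 1 → ‖m'‖ ≤ 1 →
      ‖Fq a b p0 p1 p2 m - Fq a b p0 p1 p2 m'‖ ≤ C * ‖m - m'‖ := by
  obtain ⟨c, hc, hl⟩ := h.low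
  obtain ⟨R, hR⟩ : ∃ R : ℝ, R = |p0 + p1| + |2 * p1| + |p1 + p2| := ⟨_, rfl⟩
  obtain ⟨Cr, hCr⟩ : ∃ Cr : ℝ, Cr = |2 * p1| + |p1 + p2| := ⟨_, rfl⟩
  have hCr0 : 0 ≤ Cr := by rw [hCr]; positivity
  have hR0 : 0 ≤ R := by rw [hR]; positivity
  obtain ⟨CN, hCN⟩ : ∃ CN : ℝ, CN = R + Cr + |a| + (|a| + |b|) := ⟨_, rfl⟩
  have hCN0 : 0 ≤ CN := by rw [hCN]; positivity
  obtain ⟨Bd, hBd⟩ : ∃ Bd : ℝ, Bd = 1 + (|a| + |b|) / c := ⟨_, rfl⟩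
  have hBd0 : 0 ≤ Bd := by rw [hBd]; positivity
  have hw : ∀ m' : ℂ, ‖m'‖ ≤ 1 → ‖(a : ℂ) * m' + (b : ℂ)‖ ≤ |a| + |b| := by
    intro m' hm'
    refine (norm_add_le _ _).trans ?_
    rw [norm_mul, Complex.norm_real, Complex.norm_real, Real.norm_eq_abs, Real.norm_eq_abs]
    have := mul_le_mul_of_nonneg_left hm' (abs_nonneg a)
    linarith
  have hrp : ∀ m : ℂ, ‖m‖ ≤ 1 → c ≤ rF p0 p1 p2 m := by
    intro m hm
    have h1 := hl m hm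
    have h2 : c * 1 ≤ c * (1 + ‖m‖ ^ 2) := mul_le_mul_of_nonneg_left
      (by nlinarith [sq_nonneg ‖m‖]) hc.le
    linarith
  have key : ∀ m m' : ℂ, ‖m‖ ≤ 1 → ‖m'‖ ≤ ‖m‖ → ‖Fq a b p0 p1 p2 m - Fq a b p0 p1 p2 m'‖ ≤
      4 * (CN + Bd * Cr) / c * ‖m - m'‖ := by
    intro m m' hm hm2
    have hm' : ‖m'‖ ≤ 1 := hm2.trans hm
    have r1 : 0 < rF p0 p1 p2 m := hc.trans_le (hrp m hm)
    have r2 : 0 < rF p0 p1 p2 m' := hc.trans_le (hrp m' hm')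
    have q1 := rF_lip p0 p1 p2 m m'
    have hn := norm_nonneg m
    have hn' := norm_nonneg m'
    have hd := norm_nonneg (m - m')
    have hRm : |rF p0 p1 p2 m| ≤ R := by
      rw [rF_eq, hR]
      refine (abs_add_three _ _ _).trans ?_
      have hx := (Complex.abs_re_le_norm m).trans hm
      have h4 : ‖m‖ ^ 2 ≤ 1 := by nlinarith
      rw [abs_mul (2 * p1), abs_mul (p1 + p2), abs_of_nonneg (sq_nonneg ‖m‖)]
      have g1 := mul_le_mul_of_nonneg_left hx (abs_nonneg (2 * p1))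
      have g2 := mul_le_mul_of_nonneg_left h4 (abs_nonneg (p1 + p2))
      linarith
    have hN' : ‖m' * ((rF p0 p1 p2 m' : ℝ) : ℂ) + ((1 - ‖m'‖ ^ 2 : ℝ) : ℂ) *
        ((a : ℂ) * m' + (b : ℂ))‖ ≤ Bd * rF p0 p1 p2 m' := by
      refine (norm_add_le _ _).trans ?_
      rw [norm_mul, norm_mul, Complex.norm_real, Complex.norm_real, Real.norm_of_nonneg r2.le]
      have g1 : ‖(1 - ‖m'‖ ^ 2 : ℝ)‖ ≤ 1 := by
        rw [Real.norm_eq_abs]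
        exact abs_le.2 ⟨by nlinarith, by nlinarith [sq_nonneg ‖m'‖]⟩
      have g2 := mul_le_mul g1 (hw m' hm') (norm_nonneg _) zero_le_one
      have g3 : ‖m'‖ * rF p0 p1 p2 m' ≤ 1 * rF p0 p1 p2 m' :=
        mul_le_mul_of_nonneg_right hm' r2.le
      have g4 : (|a| + |b|) ≤ (|a| + |b|) / c * rF p0 p1 p2 m' := by
        rw [div_mul_eq_mul_div, le_div_iff₀ hc]
        exact mul_le_mul_of_nonneg_left (hrp m' hm') (by positivity)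
      rw [hBd]
      linarith
    have hNN : ‖(m * ((rF p0 p1 p2 m : ℝ) : ℂ) + ((1 - ‖m‖ ^ 2 : ℝ) : ℂ) *
        ((a : ℂ) * m + (b : ℂ))) - (m' * ((rF p0 p1 p2 m' : ℝ) : ℂ) +
        ((1 - ‖m'‖ ^ 2 : ℝ) : ℂ) * ((a : ℂ) * m' + (b : ℂ)))‖ ≤
        CN * ((1 + ‖m‖ + ‖m'‖) * ‖m - m'‖) := by
      have e : (m * ((rF p0 p1 p2 m : ℝ) : ℂ) + ((1 - ‖m‖ ^ 2 : ℝ) : ℂ) *
        ((a : ℂ) * m + (b : ℂ))) - (m' * ((rF p0 p1 p2 m' : ℝ) : ℂ) +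
        ((1 - ‖m'‖ ^ 2 : ℝ) : ℂ) * ((a : ℂ) * m' + (b : ℂ))) =
          ((rF p0 p1 p2 m : ℝ) : ℂ) * (m - m') +
          ((rF p0 p1 p2 m - rF p0 p1 p2 m' : ℝ) : ℂ) * m' +
          (((1 - ‖m‖ ^ 2) * a : ℝ) : ℂ) * (m - m') -
          ((‖m‖ ^ 2 - ‖m'‖ ^ 2 : ℝ) : ℂ) * ((a : ℂ) * m' + (b : ℂ)) := by
        push_cast
        ring
      rw [e]
      refine (norm_sub_le _ _).trans ?_
      refine (add_le_add_left (norm_add₃_le) _).trans ?_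
      rw [norm_mul, norm_mul, norm_mul, norm_mul, Complex.norm_real, Complex.norm_real,
        Complex.norm_real, Complex.norm_real, Real.norm_eq_abs, Real.norm_eq_abs,
        Real.norm_eq_abs, Real.norm_eq_abs]
      have w1 := hw m' hm'
      have w2 : |(1 - ‖m‖ ^ 2) * a| ≤ |a| := by
        rw [abs_mul]
        have h4 : ‖m‖ ^ 2 ≤ 1 := by nlinarith
        have : |1 - ‖m‖ ^ 2| ≤ 1 := abs_le.2 ⟨by linarith, by linarith [sq_nonneg ‖m‖]⟩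
        have := mul_le_mul_of_nonneg_right this (abs_nonneg a)
        linarith
      have w3 := sq_lip m m'
      set T := (1 + ‖m‖ + ‖m'‖) * ‖m - m'‖ with hT
      have t1 : ‖m - m'‖ ≤ T := by rw [hT]; nlinarith [mul_nonneg hn hd, mul_nonneg hn' hd]
      have t2 : (‖m‖ + ‖m'‖) * ‖m - m'‖ ≤ T := by rw [hT]; nlinarith
      have hT0 : 0 ≤ T := hd.trans t1
      have g1 : |rF p0 p1 p2 m| * ‖m - m'‖ ≤ R * T := mul_le_mul hRm t1 hd hR0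
      have g2 : |rF p0 p1 p2 m - rF p0 p1 p2 m'| * ‖m'‖ ≤ (Cr * T) * 1 :=
        mul_le_mul (by rw [hCr]; exact q1) hm' hn' (mul_nonneg hCr0 hT0)
      have g3 : |(1 - ‖m‖ ^ 2) * a| * ‖m - m'‖ ≤ |a| * T := mul_le_mul w2 t1 hd (abs_nonneg a)
      have g4 : |‖m‖ ^ 2 - ‖m'‖ ^ 2| * ‖(a : ℂ) * m' + (b : ℂ)‖ ≤ T * (|a| + |b|) :=
        mul_le_mul (w3.trans t2) w1 (norm_nonneg _) hT0
      rw [hCN]
      nlinarith
    have hq := rat_lip hc hCN0 hCr0 hBd0 hd hn' hm2 hNN (by rw [hCr]; exact q1) (hl m hm)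
      r2 hN'
    rw [← Fq_div r1.ne', ← Fq_div r2.ne'] at hq
    have hF := norm_nonneg (Fq a b p0 p1 p2 m - Fq a b p0 p1 p2 m')
    nlinarith [mul_nonneg hn hF]
  refine ⟨4 * (CN + Bd * Cr) / c, by positivity, fun m m' hm hm' => ?_⟩
  rcases le_total ‖m'‖ ‖m‖ with h1 | h1
  · exact key m m' hm h1
  · rw [norm_sub_rev, norm_sub_rev m]
    exact key m' m hm' h1

/-- the outside piece is Lipschitz, with decay -/
theorem OutL.lipF {a p0 p1 p2 : ℝ} (h : OutL a p0 p1 p2) (b : ℝ) : ∃ C : ℝ, 0 ≤ C ∧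
    ∀ m m' : ℂ, 1 ≤ ‖m'‖ → ‖m'‖ ≤ ‖m‖ →
    (1 + ‖m‖) * ‖Fq a b p0 p1 p2 m - Fq a b p0 p1 p2 m'‖ ≤ C * ‖m - m'‖ := by
  obtain ⟨c, hc, hl⟩ := h.low
  obtain ⟨Cr, hCr⟩ : ∃ Cr : ℝ, Cr = |2 * p1| + |p1 + p2| := ⟨_, rfl⟩
  have hCr0 : 0 ≤ Cr := by rw [hCr]; positivity
  obtain ⟨CN, hCN⟩ : ∃ CN : ℝ, CN = |p0 + p1 + a| + |2 * p1| + |b| := ⟨_, rfl⟩
  have hCN0 : 0 ≤ CN := by rw [hCN]; positivity
  obtain ⟨Bd, hBd⟩ : ∃ Bd : ℝ, Bd = CN / c := ⟨_, rfl⟩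
  have hBd0 : 0 ≤ Bd := by rw [hBd]; positivity
  refine ⟨4 * (CN + Bd * Cr) / c, by positivity, fun m m' hm' hm2 => ?_⟩
  have hm : 1 ≤ ‖m‖ := hm'.trans hm2
  have r1 : 0 < rF p0 p1 p2 m := lt_of_lt_of_le (by positivity) (hl m)
  have r2 : 0 < rF p0 p1 p2 m' := lt_of_lt_of_le (by positivity) (hl m')
  have q1 := rF_lip p0 p1 p2 m m'
  have hn := norm_nonneg m
  have hn' := norm_nonneg m'
  have hd := norm_nonneg (m - m')
  have hN' : ‖m' * ((rF p0 p1 p2 m' : ℝ) : ℂ) + ((1 - ‖m'‖ ^ 2 : ℝ) : ℂ) *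
      ((a : ℂ) * m' + (b : ℂ))‖ ≤ Bd * rF p0 p1 p2 m' := by
    have e : m' * ((rF p0 p1 p2 m' : ℝ) : ℂ) + ((1 - ‖m'‖ ^ 2 : ℝ) : ℂ) *
        ((a : ℂ) * m' + (b : ℂ)) = ((p0 + p1 + a : ℝ) : ℂ) * m' +
          ((2 * p1 * m'.re : ℝ) : ℂ) * m' + ((b * (1 - ‖m'‖ ^ 2) : ℝ) : ℂ) := by
      rw [rF_eq, h.eq]
      push_cast
      ring
    rw [e]
    refine (norm_add₃_le).trans ?_
    rw [norm_mul, norm_mul, Complex.norm_real, Complex.norm_real, Complex.norm_real,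
      Real.norm_eq_abs, Real.norm_eq_abs, Real.norm_eq_abs, abs_mul (2 * p1), abs_mul b]
    have w4 := Complex.abs_re_le_norm m'
    have g1 : |p0 + p1 + a| * ‖m'‖ ≤ |p0 + p1 + a| * (1 + ‖m'‖ ^ 2) :=
      mul_le_mul_of_nonneg_left (by nlinarith [sq_nonneg (‖m'‖ - 1)]) (abs_nonneg _)
    have g2 : |2 * p1| * |m'.re| * ‖m'‖ ≤ |2 * p1| * (1 + ‖m'‖ ^ 2) := by
      have : |m'.re| * ‖m'‖ ≤ 1 + ‖m'‖ ^ 2 := by
        have := mul_le_mul_of_nonneg_right w4 hn'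
        nlinarith
      have := mul_le_mul_of_nonneg_left this (abs_nonneg (2 * p1))
      linarith
    have g3 : |b| * |1 - ‖m'‖ ^ 2| ≤ |b| * (1 + ‖m'‖ ^ 2) :=
      mul_le_mul_of_nonneg_left (abs_le.2 ⟨by linarith [sq_nonneg ‖m'‖],
        by linarith [sq_nonneg ‖m'‖]⟩) (abs_nonneg _)
    have g4 : CN * (1 + ‖m'‖ ^ 2) ≤ Bd * rF p0 p1 p2 m' := by
      rw [hBd, div_mul_eq_mul_div, le_div_iff₀ hc]
      have := mul_le_mul_of_nonneg_left (hl m') hCN0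
      linarith
    have g5 : |p0 + p1 + a| * (1 + ‖m'‖ ^ 2) + |2 * p1| * (1 + ‖m'‖ ^ 2) +
        |b| * (1 + ‖m'‖ ^ 2) = CN * (1 + ‖m'‖ ^ 2) := by
      rw [hCN]
      ring
    linarith
  have hNN : ‖(m * ((rF p0 p1 p2 m : ℝ) : ℂ) + ((1 - ‖m‖ ^ 2 : ℝ) : ℂ) *
      ((a : ℂ) * m + (b : ℂ))) - (m' * ((rF p0 p1 p2 m' : ℝ) : ℂ) +
      ((1 - ‖m'‖ ^ 2 : ℝ) : ℂ) * ((a : ℂ) * m' + (b : ℂ)))‖ ≤
      CN * ((1 + ‖m‖ + ‖m'‖) * ‖m - m'‖) := by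
    have e : (m * ((rF p0 p1 p2 m : ℝ) : ℂ) + ((1 - ‖m‖ ^ 2 : ℝ) : ℂ) *
      ((a : ℂ) * m + (b : ℂ))) - (m' * ((rF p0 p1 p2 m' : ℝ) : ℂ) +
      ((1 - ‖m'‖ ^ 2 : ℝ) : ℂ) * ((a : ℂ) * m' + (b : ℂ))) =
        ((p0 + p1 + a : ℝ) : ℂ) * (m - m') +
        ((2 * p1 : ℝ) : ℂ) * ((m.re : ℂ) * (m - m') + ((m.re - m'.re : ℝ) : ℂ) * m') -
        ((b * (‖m‖ ^ 2 - ‖m'‖ ^ 2) : ℝ) : ℂ) := by
      rw [rF_eq, rF_eq, h.eq]
      push_cast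
      ring
    rw [e]
    have w2 := sq_lip m m'
    have w3 := re_lip m m'
    have w4 := Complex.abs_re_le_norm m
    set T := (1 + ‖m‖ + ‖m'‖) * ‖m - m'‖ with hT
    have t1 : ‖m - m'‖ ≤ T := by rw [hT]; nlinarith [mul_nonneg hn hd, mul_nonneg hn' hd]
    have t2 : (‖m‖ + ‖m'‖) * ‖m - m'‖ ≤ T := by rw [hT]; nlinarith
    have hT0 : 0 ≤ T := hd.trans t1
    have v1 : ‖(m.re : ℂ) * (m - m') + ((m.re - m'.re : ℝ) : ℂ) * m'‖ ≤ T := by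
      refine (norm_add_le _ _).trans (le_trans ?_ t2)
      rw [norm_mul, norm_mul, Complex.norm_real, Complex.norm_real, Real.norm_eq_abs,
        Real.norm_eq_abs]
      have g1 := mul_le_mul_of_nonneg_right w4 hd
      have g2 := mul_le_mul_of_nonneg_right w3 hn'
      nlinarith
    refine (norm_sub_le _ _).trans ?_
    refine (add_le_add_left (norm_add_le _ _) _).trans ?_
    rw [norm_mul, norm_mul, Complex.norm_real, Complex.norm_real, Complex.norm_real,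
      Real.norm_eq_abs, Real.norm_eq_abs, Real.norm_eq_abs, abs_mul b]
    have g1 := mul_le_mul_of_nonneg_left t1 (abs_nonneg (p0 + p1 + a))
    have g2 := mul_le_mul_of_nonneg_left v1 (abs_nonneg (2 * p1))
    have g3 := mul_le_mul_of_nonneg_left (w2.trans t2) (abs_nonneg b)
    rw [hCN]
    nlinarith
  have hq := rat_lip hc hCN0 hCr0 hBd0 hd hn' hm2 hNN (by rw [hCr]; exact q1) (hl m)
    r2 hN'
  rw [← Fq_div r1.ne', ← Fq_div r2.ne'] at hq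
  exact hq

/-- (5), inside piece -/
theorem InL.inLip {p0 p1 p2 : ℝ} (h : InL p0 p1 p2) (a b : ℝ) :
    ∃ C : ℝ, InLip (fun m _ => Fq a b p0 p1 p2 m) C := by
  obtain ⟨C, hC, hk⟩ := h.lipF a b
  refine ⟨C, hC, fun m m' t t' hm hm' => ?_, fun u m t hu hm => ?_⟩
  · exact (hk m m' hm hm').trans (mul_le_mul_of_nonneg_left
      (by linarith [norm_nonneg (t - t')]) hC)
  · refine (hk (u * m) m (by rw [norm_mul, hu, one_mul]; exact hm) hm).trans ?_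
    have e : u * m - m = (u - 1) * m := by ring
    rw [e, norm_mul]
    have h2 := mul_le_mul_of_nonneg_left hm (norm_nonneg (u - 1))
    exact mul_le_mul_of_nonneg_left (by linarith) hC

/-- (5), outside piece -/
theorem OutL.outLip {a p0 p1 p2 : ℝ} (h : OutL a p0 p1 p2) (b : ℝ) :
    ∃ C : ℝ, OutLip (fun m _ => Fq a b p0 p1 p2 m) C := by
  obtain ⟨C, hC, k2⟩ := h.lipF b
  refine ⟨C, hC, fun m m' t t' hm hm' => ?_, fun u m t hu hm => ?_⟩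
  · have h3 := norm_nonneg (Fq a b p0 p1 p2 m - Fq a b p0 p1 p2 m')
    have h4 : ‖Fq a b p0 p1 p2 m - Fq a b p0 p1 p2 m'‖ ≤ C * ‖m - m'‖ := by
      rcases le_total ‖m'‖ ‖m‖ with h1 | h1
      · have h2 := k2 m m' hm' h1
        nlinarith [norm_nonneg m]
      · have h2 := k2 m' m hm h1
        rw [norm_sub_rev, norm_sub_rev m]
        rw [norm_sub_rev] at h3
        nlinarith [norm_nonneg m']
    exact h4.trans (mul_le_mul_of_nonneg_left (by linarith [norm_nonneg (t - t')]) hC)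
  · have e0 : ‖u * m‖ = ‖m‖ := by rw [norm_mul, hu, one_mul]
    have h2 := k2 (u * m) m hm (by rw [e0])
    have e : u * m - m = (u - 1) * m := by ring
    rw [e0, e, norm_mul] at h2
    have h4 : 0 < 1 + ‖m‖ := by positivity
    have h5 : C * (‖u - 1‖ * ‖m‖) ≤ (1 + ‖m‖) * (C * ‖u - 1‖) := by
      have := mul_nonneg hC (norm_nonneg (u - 1))
      nlinarith
    exact le_of_mul_le_mul_left (h2.trans h5) h4

/-- a two-jet field which does not depend on the second invariant -/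
theorem glip_of_glip2 {G : ℂ → ℂ} {L : ℝ} (h : GLip2 (fun m _ => G m) L) : GLip G L :=
  ⟨fun m => h.le_one m 0, fun m m' => h.lip m m' 0, fun u m hu => h.rot u m 0 hu⟩

theorem glip2_of_glip {G : ℂ → ℂ} {L : ℝ} (h : GLip G L) : GLip2 (fun m _ => G m) L :=
  ⟨fun m _ => h.le_one m, fun m m' _ => h.lip m m', fun u m _ hu => h.rot u m hu,
    (Pool.Agent.Helper70.EK.GLip.continuous h).comp continuous_fst⟩

/-- **the two-sided one-jet field**, retracted to the unit disc -/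
noncomputable def Gp (a b p0 p1 p2 a' b' q0 q1 q2 : ℝ) (m : ℂ) : ℂ :=
  prj (if ‖m‖ ≤ 1 then Fq a b p0 p1 p2 m else Fq a' b' q0 q1 q2 m)

theorem Gp_glip {a b p0 p1 p2 a' b' q0 q1 q2 : ℝ} (h : InL p0 p1 p2)
    (h' : OutL a' q0 q1 q2) : ∃ C : ℝ, GLip (Gp a b p0 p1 p2 a' b' q0 q1 q2) C := by
  obtain ⟨C1, k1⟩ := h.inLip a b
  obtain ⟨C2, k2⟩ := h'.outLip b'
  exact ⟨_, glip_of_glip2 (glue2 k1 k2 fun m t hm => by
    show Fq a b p0 p1 p2 m = Fq a' b' q0 q1 q2 m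
    rw [Fq_circle hm, Fq_circle hm])⟩

theorem Gp_conj (a b p0 p1 p2 a' b' q0 q1 q2 : ℝ) (m : ℂ) :
    Gp a b p0 p1 p2 a' b' q0 q1 q2 (conj m) = conj (Gp a b p0 p1 p2 a' b' q0 q1 q2 m) := by
  unfold Gp
  rw [norm_conj, ← prj_conj]
  split_ifs
  · rw [Fq_conj]
  · rw [Fq_conj]

theorem Gp_in {a b p0 p1 p2 a' b' q0 q1 q2 : ℝ} {m : ℂ} (hm : ‖m‖ ≤ 1) {e : ℂ}
    (he : ‖e‖ = 1) :
    ‖Gp a b p0 p1 p2 a' b' q0 q1 q2 m - e‖ ^ 2 ≤ ‖Fq a b p0 p1 p2 m - e‖ ^ 2 := by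
  unfold Gp
  rw [if_pos hm]
  exact prj_dist_sq he.le

theorem Gp_out {a b p0 p1 p2 a' b' q0 q1 q2 : ℝ} {m : ℂ} (hm : 1 ≤ ‖m‖) {e : ℂ}
    (he : ‖e‖ = 1) :
    ‖Gp a b p0 p1 p2 a' b' q0 q1 q2 m - e‖ ^ 2 ≤ ‖Fq a' b' q0 q1 q2 m - e‖ ^ 2 := by
  unfold Gp
  rcases eq_or_lt_of_le hm with h | h
  · rw [if_pos h.symm.le, Fq_circle h.symm, Fq_circle h.symm]
    exact prj_dist_sq he.le
  · rw [if_neg (not_le.2 h)]
    exact prj_dist_sq he.le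

end Pool.Agent.Helper20.EK7
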