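import Pool.Agent.Helper20.EK7.Prj

/-!
# Project EK7: fields `G m t` given by two pieces, inside and outside the unit circle of `m`

`InLip A L`, `OutLip B L`: the conditions on the two pieces (closed under sums);
`glue2`: gluing, with the radial retraction to the unit disc.
-/

set_option autoImplicit false

open Complex Metric Set Filter Topology
open scoped Real ComplexConjugate NNReal

namespace Pool.Agent.Helper20.EK7

open Pool.Agent.Helper52.EK Pool.Agent.Helper69.EK3 Pool.Agent.Helper69.EK7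

/-- conditions on the inside piece -/
structure InLip (A : ℂ → ℂ → ℂ) (L : ℝ) : Prop where
  nonneg : 0 ≤ L
  lip : ∀ m m' t t' : ℂ, ‖m‖ ≤ 1 → ‖m'‖ ≤ 1 → ‖A m t - A m' t'‖ ≤ L * (‖m - m'‖ + ‖t - t'‖)
  rot : ∀ u m t : ℂ, ‖u‖ = 1 → ‖m‖ ≤ 1 → ‖A (u * m) (u ^ 2 * t) - A m t‖ ≤ L * ‖u - 1‖

/-- conditions on the outside piece -/
structure OutLip (B : ℂ → ℂ → ℂ) (L : ℝ) : Prop where
  nonneg : 0 ≤ L
  lip : ∀ m m' t t' : ℂ, 1 ≤ ‖m‖ → 1 ≤ ‖m'‖ → ‖B m t - B m' t'‖ ≤ L * (‖m - m'‖ + ‖t - t'‖)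
  rot : ∀ u m t : ℂ, ‖u‖ = 1 → 1 ≤ ‖m‖ → ‖B (u * m) (u ^ 2 * t) - B m t‖ ≤ L * ‖u - 1‖

theorem InLip.mono {A : ℂ → ℂ → ℂ} {L L' : ℝ} (h : InLip A L) (hL : L ≤ L') : InLip A L' :=
  ⟨h.nonneg.trans hL,
    fun m m' t t' h1 h2 => (h.lip m m' t t' h1 h2).trans
      (mul_le_mul_of_nonneg_right hL (by positivity)),
    fun u m t h1 h2 => (h.rot u m t h1 h2).trans
      (mul_le_mul_of_nonneg_right hL (norm_nonneg _))⟩

theorem OutLip.mono {B : ℂ → ℂ → ℂ} {L L' : ℝ} (h : OutLip B L) (hL : L ≤ L') : OutLip B L' :=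
  ⟨h.nonneg.trans hL,
    fun m m' t t' h1 h2 => (h.lip m m' t t' h1 h2).trans
      (mul_le_mul_of_nonneg_right hL (by positivity)),
    fun u m t h1 h2 => (h.rot u m t h1 h2).trans
      (mul_le_mul_of_nonneg_right hL (norm_nonneg _))⟩

theorem InLip.add {A A' : ℂ → ℂ → ℂ} {L L' : ℝ} (h : InLip A L) (h' : InLip A' L') :
    InLip (fun m t => A m t + A' m t) (L + L') := by
  refine ⟨add_nonneg h.nonneg h'.nonneg, fun m m' t t' h1 h2 => ?_, fun u m t h1 h2 => ?_⟩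
  · rw [add_sub_add_comm, add_mul]
    exact (norm_add_le _ _).trans (add_le_add (h.lip m m' t t' h1 h2) (h'.lip m m' t t' h1 h2))
  · rw [add_sub_add_comm, add_mul]
    exact (norm_add_le _ _).trans (add_le_add (h.rot u m t h1 h2) (h'.rot u m t h1 h2))

theorem OutLip.add {B B' : ℂ → ℂ → ℂ} {L L' : ℝ} (h : OutLip B L) (h' : OutLip B' L') :
    OutLip (fun m t => B m t + B' m t) (L + L') := by
  refine ⟨add_nonneg h.nonneg h'.nonneg, fun m m' t t' h1 h2 => ?_, fun u m t h1 h2 => ?_⟩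
  · rw [add_sub_add_comm, add_mul]
    exact (norm_add_le _ _).trans (add_le_add (h.lip m m' t t' h1 h2) (h'.lip m m' t t' h1 h2))
  · rw [add_sub_add_comm, add_mul]
    exact (norm_add_le _ _).trans (add_le_add (h.rot u m t h1 h2) (h'.rot u m t h1 h2))

/-- **gluing** of two pieces along the unit circle -/
theorem glue2 {A B : ℂ → ℂ → ℂ} {L L' : ℝ} (hA : InLip A L) (hB : OutLip B L')
    (hAB : ∀ m t : ℂ, ‖m‖ = 1 → A m t = B m t) :
    GLip2 (fun m t => prj (if ‖m‖ ≤ 1 then A m t else B m t)) (2 * max L L') := by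
  obtain ⟨M, hM⟩ : ∃ M, M = max L L' := ⟨_, rfl⟩
  have hA' : InLip A M := hA.mono (by rw [hM]; exact le_max_left _ _)
  have hB' : OutLip B M := hB.mono (by rw [hM]; exact le_max_right _ _)
  rw [← hM]
  have key : ∀ m m' t : ℂ, ‖m‖ ≤ 1 → 1 ≤ ‖m'‖ → ‖A m t - B m' t‖ ≤ M * ‖m - m'‖ := by
    intro m m' t h h'
    obtain ⟨p, hp, he⟩ := exists_cross h h'
    have e : A m t - B m' t = (A m t - A p t) + (B p t - B m' t) := by rw [hAB p t hp]; ring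
    rw [e]
    refine (norm_add_le _ _).trans ?_
    have h1 := hA'.lip m p t t h hp.le
    have h2 := hB'.lip p m' t t hp.ge h'
    rw [sub_self, norm_zero, add_zero] at h1 h2
    rw [← he, mul_add]
    linarith
  -- the inner function
  set F : ℂ → ℂ → ℂ := fun m t => if ‖m‖ ≤ 1 then A m t else B m t with hF
  have lm : ∀ m m' t : ℂ, ‖F m t - F m' t‖ ≤ M * ‖m - m'‖ := by
    intro m m' t
    simp only [hF]
    split_ifs with h h' h'
    · have h1 := hA'.lip m m' t t h h'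
      rwa [sub_self, norm_zero, add_zero] at h1
    · exact key m m' t h (le_of_lt (not_le.mp h'))
    · rw [norm_sub_rev, norm_sub_rev m]
      exact key m' m t h' (le_of_lt (not_le.mp h))
    · have h1 := hB'.lip m m' t t (le_of_lt (not_le.mp h)) (le_of_lt (not_le.mp h'))
      rwa [sub_self, norm_zero, add_zero] at h1
  have lt : ∀ m t t' : ℂ, ‖F m t - F m t'‖ ≤ M * ‖t - t'‖ := by
    intro m t t'
    simp only [hF]
    split_ifs with h
    · have h1 := hA'.lip m m t t' h h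
      rwa [sub_self, norm_zero, zero_add] at h1
    · have h1 := hB'.lip m m t t' (le_of_lt (not_le.mp h)) (le_of_lt (not_le.mp h))
      rwa [sub_self, norm_zero, zero_add] at h1
  have lr : ∀ u m t : ℂ, ‖u‖ = 1 → ‖F (u * m) (u ^ 2 * t) - F m t‖ ≤ M * ‖u - 1‖ := by
    intro u m t hu
    simp only [hF]
    rw [norm_mul, hu, one_mul]
    split_ifs with h
    · exact hA'.rot u m t hu h
    · exact hB'.rot u m t hu (le_of_lt (not_le.mp h))
  have hM0 := hA'.nonneg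
  change GLip2 (fun m t => prj (F m t)) (2 * M)
  refine ⟨fun m t => norm_prj_le _, fun m m' t => ?_, fun u m t hu => ?_, ?_⟩
  · have := (prj_lip (F m t) (F m' t)).trans
      (mul_le_mul_of_nonneg_left (lm m m' t) (by norm_num))
    linarith
  · have := (prj_lip (F (u * m) (u ^ 2 * t)) (F m t)).trans
      (mul_le_mul_of_nonneg_left (lr u m t hu) (by norm_num))
    linarith
  · have hlip : ∀ p q : ℂ × ℂ, dist (prj (F p.1 p.2)) (prj (F q.1 q.2)) ≤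
        (4 * M) * dist p q := by
      intro p q
      rw [dist_eq_norm]
      have h1 := prj_lip (F p.1 p.2) (F q.1 q.2)
      have e : F p.1 p.2 - F q.1 q.2 = (F p.1 p.2 - F q.1 p.2) + (F q.1 p.2 - F q.1 q.2) := by
        ring
      have h2 := norm_add_le (F p.1 p.2 - F q.1 p.2) (F q.1 p.2 - F q.1 q.2)
      rw [← e] at h2
      have h3 := lm p.1 q.1 p.2
      have h4 := lt q.1 p.2 q.2
      have h5 : ‖p.1 - q.1‖ ≤ dist p q := by
        rw [← dist_eq_norm, Prod.dist_eq]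
        exact le_max_left _ _
      have h6 : ‖p.2 - q.2‖ ≤ dist p q := by
        rw [← dist_eq_norm, Prod.dist_eq]
        exact le_max_right _ _
      have h7 := mul_le_mul_of_nonneg_left h5 hM0
      have h8 := mul_le_mul_of_nonneg_left h6 hM0
      linarith
    exact (LipschitzWith.of_dist_le_mul (K := ⟨4 * M, by positivity⟩) hlip).continuous

/-- the glued field -/
noncomputable def Gg (b b' : ℂ → ℂ → ℂ) (m t : ℂ) : ℂ :=
  prj (if ‖m‖ ≤ 1 then b m (cut6 t) else b' (m / ((‖m‖ ^ 2 : ℝ) : ℂ)) (cut6 t))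

section pieces

variable {b : ℂ → ℂ → ℂ} {K : ℝ≥0}

theorem lip_of_on (hb : LipschitzOnWith K (fun p : ℂ × ℂ => b p.1 p.2)
    (closedBall 0 1 ×ˢ closedBall 0 6)) {m m' t t' : ℂ} (hm : ‖m‖ ≤ 1) (hm' : ‖m'‖ ≤ 1)
    (ht : ‖t‖ ≤ 6) (ht' : ‖t'‖ ≤ 6) :
    ‖b m t - b m' t'‖ ≤ (K : ℝ) * (‖m - m'‖ + ‖t - t'‖) := by
  have h1 : (m, t) ∈ closedBall (0:ℂ) 1 ×ˢ closedBall (0:ℂ) 6 :=
    ⟨mem_closedBall_zero_iff.2 hm, mem_closedBall_zero_iff.2 ht⟩
  have h2 : (m', t') ∈ closedBall (0:ℂ) 1 ×ˢ closedBall (0:ℂ) 6 :=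
    ⟨mem_closedBall_zero_iff.2 hm', mem_closedBall_zero_iff.2 ht'⟩
  have h3 := hb.dist_le_mul _ h1 _ h2
  rw [dist_eq_norm, Prod.dist_eq, dist_eq_norm, dist_eq_norm] at h3
  refine h3.trans (mul_le_mul_of_nonneg_left ?_ K.2)
  exact max_le (by linarith [norm_nonneg (t - t')]) (by linarith [norm_nonneg (m - m')])

theorem norm_sq_sub_one_le {u : ℂ} (hu : ‖u‖ = 1) : ‖u ^ 2 - 1‖ ≤ 2 * ‖u - 1‖ := by
  have e : u ^ 2 - 1 = (u + 1) * (u - 1) := by ring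
  rw [e, norm_mul]
  have h1 := norm_add_le u 1
  rw [hu, norm_one] at h1
  exact mul_le_mul_of_nonneg_right (by linarith) (norm_nonneg _)

theorem rot_of_on (hb : LipschitzOnWith K (fun p : ℂ × ℂ => b p.1 p.2)
    (closedBall 0 1 ×ˢ closedBall 0 6)) {u m t : ℂ} (hu : ‖u‖ = 1) (hm : ‖m‖ ≤ 1) :
    ‖b (u * m) (cut6 (u ^ 2 * t)) - b m (cut6 t)‖ ≤ (13 * (K : ℝ)) * ‖u - 1‖ := by
  have hu2 : ‖u ^ 2‖ = 1 := by rw [norm_pow, hu, one_pow]
  have h1 := lip_of_on hb (m := u * m) (m' := m) (t := cut6 (u ^ 2 * t)) (t' := cut6 t)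
    (by rw [norm_mul, hu, one_mul]; exact hm) hm (norm_cut6_le _) (norm_cut6_le _)
  refine h1.trans ?_
  rw [cut6_mul hu2]
  have e1 : u * m - m = (u - 1) * m := by ring
  have e2 : u ^ 2 * cut6 t - cut6 t = (u ^ 2 - 1) * cut6 t := by ring
  rw [e1, e2, norm_mul, norm_mul]
  have g0 := norm_nonneg (u - 1)
  have g1 := mul_le_mul_of_nonneg_left hm g0
  have g2 : ‖u ^ 2 - 1‖ * ‖cut6 t‖ ≤ (2 * ‖u - 1‖) * 6 :=
    mul_le_mul (norm_sq_sub_one_le hu) (norm_cut6_le t) (norm_nonneg _) (by positivity)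
  have g3 : (K : ℝ) * (‖u - 1‖ * ‖m‖ + ‖u ^ 2 - 1‖ * ‖cut6 t‖) ≤ K * (13 * ‖u - 1‖) :=
    mul_le_mul_of_nonneg_left (by linarith) K.2
  linarith

theorem inLip_of_on (hb : LipschitzOnWith K (fun p : ℂ × ℂ => b p.1 p.2)
    (closedBall 0 1 ×ˢ closedBall 0 6)) : InLip (fun m t => b m (cut6 t)) (13 * K) := by
  have hK : (0:ℝ) ≤ K := K.2
  refine ⟨by positivity, fun m m' t t' hm hm' => ?_, fun u m t hu hm => rot_of_on hb hu hm⟩
  have h1 := lip_of_on hb hm hm' (norm_cut6_le t) (norm_cut6_le t')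
  have h2 := cut6_lip t t'
  refine h1.trans ?_
  have h3 : (K : ℝ) * (‖m - m'‖ + ‖cut6 t - cut6 t'‖) ≤ K * (13 * (‖m - m'‖ + ‖t - t'‖)) :=
    mul_le_mul_of_nonneg_left (by linarith [norm_nonneg (m - m'), norm_nonneg (t - t')]) hK
  linarith

theorem outLip_of_on (hb : LipschitzOnWith K (fun p : ℂ × ℂ => b p.1 p.2)
    (closedBall 0 1 ×ˢ closedBall 0 6)) : OutLip (fun m t => b (iv m) (cut6 t)) (13 * K) := by
  have hK : (0:ℝ) ≤ K := K.2
  refine ⟨by positivity, fun m m' t t' hm hm' => ?_, fun u m t hu hm => ?_⟩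
  · have h1 := lip_of_on hb (norm_iv_le hm) (norm_iv_le hm') (norm_cut6_le t) (norm_cut6_le t')
    have h2 := cut6_lip t t'
    have h4 := iv_lip hm hm'
    refine h1.trans ?_
    have h3 : (K : ℝ) * (‖iv m - iv m'‖ + ‖cut6 t - cut6 t'‖) ≤
        K * (13 * (‖m - m'‖ + ‖t - t'‖)) :=
      mul_le_mul_of_nonneg_left (by linarith [norm_nonneg (m - m'), norm_nonneg (t - t')]) hK
    linarith
  · have h1 := rot_of_on hb (t := t) hu (norm_iv_le hm)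
    rw [← iv_mul hu] at h1
    exact h1

end pieces

/-- (1) -/
theorem Gg_glip {b b' : ℂ → ℂ → ℂ}
    (hb : ∃ K : ℝ≥0, LipschitzOnWith K (fun p : ℂ × ℂ => b p.1 p.2)
      (closedBall 0 1 ×ˢ closedBall 0 6))
    (hb' : ∃ K : ℝ≥0, LipschitzOnWith K (fun p : ℂ × ℂ => b' p.1 p.2)
      (closedBall 0 1 ×ˢ closedBall 0 6))
    (hbb : ∀ m t : ℂ, ‖m‖ = 1 → ‖t‖ ≤ 6 → b m t = b' m t) : ∃ L : ℝ, GLip2 (Gg b b') L := by
  obtain ⟨K, hK⟩ := hb
  obtain ⟨K', hK'⟩ := hb'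
  refine ⟨_, glue2 (inLip_of_on hK) (outLip_of_on hK') fun m t hm => ?_⟩
  have e := iv_of_one hm
  unfold iv at e
  rw [e]
  exact hbb m _ hm (norm_cut6_le t)

/-- (2) Lipschitz bound from `C¹` on an open neighbourhood -/
theorem lipOn_of_contDiffOn {f : ℂ × ℂ → ℂ} {U : Set (ℂ × ℂ)} (hU : IsOpen U)
    (hs : closedBall (0:ℂ) 1 ×ˢ closedBall (0:ℂ) 6 ⊆ U) (hf : ContDiffOn ℝ 1 f U) :
    ∃ K : ℝ≥0, LipschitzOnWith K f (closedBall 0 1 ×ˢ closedBall 0 6) := by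
  have hc : IsCompact (closedBall (0:ℂ) 1 ×ˢ closedBall (0:ℂ) 6) :=
    (isCompact_closedBall 0 1).prod (isCompact_closedBall 0 6)
  have h1 : ContinuousOn (fderiv ℝ f) (closedBall (0:ℂ) 1 ×ˢ closedBall (0:ℂ) 6) :=
    (hf.continuousOn_fderiv_of_isOpen hU le_rfl).mono hs
  obtain ⟨C, hC⟩ := hc.exists_bound_of_continuousOn h1
  refine ⟨C.toNNReal, Convex.lipschitzOnWith_of_nnnorm_fderiv_le (𝕜 := ℝ) (fun x hx => ?_)
    (fun x hx => ?_) ((convex_closedBall 0 1).prod (convex_closedBall 0 6))⟩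
  · exact (hf.differentiableOn one_ne_zero).differentiableAt (hU.mem_nhds (hs hx))
  · rw [← NNReal.coe_le_coe, coe_nnnorm]
    exact (hC x hx).trans (Real.le_coe_toNNReal C)

/-- (2) -/
theorem lipOn_of_contDiff {f : ℂ × ℂ → ℂ} (hf : ContDiff ℝ 1 f) :
    ∃ K : ℝ≥0, LipschitzOnWith K f (closedBall 0 1 ×ˢ closedBall 0 6) :=
  lipOn_of_contDiffOn isOpen_univ (subset_univ _) hf.contDiffOn

/-- (3) -/
theorem Gg_conj {b b' : ℂ → ℂ → ℂ} (hb : ∀ m t, b (conj m) (conj t) = conj (b m t))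
    (hb' : ∀ m t, b' (conj m) (conj t) = conj (b' m t)) (m t : ℂ) :
    Gg b b' (conj m) (conj t) = conj (Gg b b' m t) := by
  have e := iv_conj m
  unfold iv at e
  unfold Gg
  rw [← prj_conj, cut6_conj, e, norm_conj]
  split_ifs
  · rw [hb]
  · rw [hb']

/-- (4), inside -/
theorem Gg_in {b b' : ℂ → ℂ → ℂ} {m t : ℂ} (hm : ‖m‖ ≤ 1) (ht : ‖t‖ ≤ 6) {e : ℂ}
    (he : ‖e‖ = 1) : ‖Gg b b' m t - e‖ ^ 2 ≤ ‖b m t - e‖ ^ 2 := by
  unfold Gg
  rw [if_pos hm, cut6_of_le ht]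
  exact prj_dist_sq he.le

/-- (4), outside -/
theorem Gg_out {b b' : ℂ → ℂ → ℂ} {m t : ℂ} (hm : 1 < ‖m‖) (ht : ‖t‖ ≤ 6) {e : ℂ}
    (he : ‖e‖ = 1) :
    ‖Gg b b' m t - e‖ ^ 2 ≤ ‖b' (m / ((‖m‖ ^ 2 : ℝ) : ℂ)) t - e‖ ^ 2 := by
  unfold Gg
  rw [if_neg (not_le.2 hm), cut6_of_le ht]
  exact prj_dist_sq he.le

/-- (4), on the unit circle both forms hold -/
theorem Gg_out' {b b' : ℂ → ℂ → ℂ} (hbb : ∀ m t : ℂ, ‖m‖ = 1 → ‖t‖ ≤ 6 → b m t = b' m t)
    {m t : ℂ} (hm : 1 ≤ ‖m‖) (ht : ‖t‖ ≤ 6) {e : ℂ} (he : ‖e‖ = 1) :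
    ‖Gg b b' m t - e‖ ^ 2 ≤ ‖b' (m / ((‖m‖ ^ 2 : ℝ) : ℂ)) t - e‖ ^ 2 := by
  rcases eq_or_lt_of_le hm with h | h
  · have h1 := Gg_in (b := b) (b' := b') h.symm.le ht he
    have h2 := iv_of_one h.symm
    unfold iv at h2
    rw [hbb m t h.symm ht] at h1
    rw [h2]
    exact h1
  · exact Gg_out h ht he

end Pool.Agent.Helper20.EK7
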