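import Pool.Agent.Helper69.EK7.Px
import Pool.Agent.Helper20.EK7.RingAlg

/-!
# Project EK7: the field in the half angle ring, expressions
-/

set_option autoImplicit false

open Complex Metric Set
open scoped Real ComplexConjugate

namespace Pool.Agent.Helper20.EK7

open Pool.Sos71 Pool.EK71 Pool.Agent.Helper52.EK Pool.Agent.Helper69.EK7
open Pool.Agent.Helper69.EK3 (eA eB eo)

/-- `(C - i S)²` -/
def cE : CE := ⟨eB, Ex.sc (-1) eA⟩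
/-- `σ = S (2X-1) + P` -/
def cSg : CE := CE.add (CE.rm (Ex.va 1) ⟨Ex.bp [[1], [2]], Ex.bp [[0, 2]]⟩) cP
/-- `ω = 2 S (X-1) + P` -/
def cOm : CE := CE.add (CE.rm (Ex.va 1) ⟨Ex.bp [[0], [2]], Ex.bp [[0, 2]]⟩) cP
/-- `κ = S² (1 - 4 X²) + 2 ρ - P²` -/
def cKp : CE := CE.add (CE.rm (Ex.pow (Ex.va 1) 2)
  ⟨Ex.bp [[-3, 0, 4], [-8], [-4]], Ex.bp [[0, -8], [0, -8]]⟩)
  (CE.add (CE.sc 2 cR) (CE.sc (-1) (CE.mul cP cP)))
/-- `ν = 4 S² (2X-1)(X-1) + 6 S (2X-1) P + 2 P² + 2 ρ` -/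
def cNu : CE := CE.add (CE.rm (Ex.pow (Ex.va 1) 2)
  ⟨Ex.bp [[0, 0, -8], [4], [8]], Ex.bp [[0, 4], [0, 16]]⟩)
  (CE.add (CE.rm (Ex.va 1) (CE.mul ⟨Ex.bp [[6], [12]], Ex.bp [[0, 12]]⟩ cP))
    (CE.sc 2 (CE.add (CE.mul cP cP) cR)))

/-- squared modulus -/
def cSq (a : CE) : Ex := Ex.add (Ex.pow a.r 2) (Ex.pow a.i 2)

theorem re9_cSq (x : Pnt9) (a : CE) : re9 x (cSq a) = ‖CE.v x a‖ ^ 2 := by
  rw [← normSq_eq_norm_sq, normSq_apply]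
  simp only [cSq, re9, CE.v]
  ring

/-- `N W = Gm ω + N v + sg l Al σ` -/
def cWW (N Gm Al sg : ℤ) : CE := CE.add (CE.sc Gm cOm)
  (CE.add (CE.sc N cV) (CE.rm (Ex.sc (sg * Al) (Ex.va 0)) cSg))

/-- `N K = C0 + sg l (Be - Al)` -/
def eKK (C0 Al Be sg : ℤ) : Ex := Ex.add (Ex.lit C0) (Ex.sc (sg * (Be - Al)) (Ex.va 0))

/-- the loss times `N²`, weight 4 -/
def eT9 (N Gm C0 Al Be sg : ℤ) : Ex :=
  Ex.add (Ex.sc 16 (Ex.mul (Ex.pow (Ex.va 2) 2) (cSq (cWW N Gm Al sg))))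
    (Ex.add (Ex.sc 8 (Ex.mul (Ex.mul (eKK C0 Al Be sg) (Ex.va 2))
        (Ex.add (Ex.mul eA (cWW N Gm Al sg).r) (Ex.sc (-1) (Ex.mul eB (cWW N Gm Al sg).i)))))
      (Ex.add (Ex.sc (8 * (Gm - N)) (Ex.mul (Ex.va 2)
          (Ex.add (Ex.mul eA (cWW N Gm Al sg).r) (Ex.mul eB (cWW N Gm Al sg).i))))
        (Ex.add (Ex.mul (Ex.add (Ex.pow (eKK C0 Al Be sg) 2) (Ex.lit ((Gm - N) ^ 2)))
            (Ex.pow eo 2))
          (Ex.sc (2 * (Gm - N)) (Ex.mul (eKK C0 Al Be sg)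
            (Ex.add (Ex.pow eA 2) (Ex.sc (-1) (Ex.pow eB 2))))))))

/-- the constraint of `v`, weight 5 -/
def cCV (n0 nd ng0 ng1 : ℤ) : CE :=
  CE.add (CE.rm (Ex.add (Ex.sc n0 (Ex.pow eo 2))
      (Ex.sc (16 * nd) (Ex.mul (Ex.pow (Ex.va 2) 2) (cSq cSg)))) cV)
    (CE.add (CE.sc (2 * ng0) (CE.mI (CE.rm (Ex.va 2) (CE.mul cE cNu))))
      (CE.sc (8 * ng1) (CE.rm (Ex.pow (Ex.va 2) 2) (CE.mul (CE.cj cSg) cNu))))

/-- the inequality of Kraus, weight 4 -/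
def eKr : Ex := Ex.add (Ex.sc 9 (Ex.add (Ex.pow (Ex.va 2) 4)
    (Ex.add (Ex.sc 4 (Ex.mul (Ex.pow (Ex.va 1) 2) (Ex.pow (Ex.va 2) 2)))
      (Ex.sc 11 (Ex.pow (Ex.va 1) 4)))))
  (Ex.sc (-16) (cSq cKp))

section val

variable (l η : ℝ) (X Y Z w : ℂ)

theorem re9_0 : re9 (px9 l η X Y Z w) (Ex.va 0) = l := rfl
theorem re9_1 : re9 (px9 l η X Y Z w) (Ex.va 1) = Real.sin (η / 2) := rfl
theorem re9_2 : re9 (px9 l η X Y Z w) (Ex.va 2) = Real.cos (η / 2) := rfl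

theorem re9_eA : re9 (px9 l η X Y Z w) eA = 2 * Real.sin (η / 2) * Real.cos (η / 2) := by
  show ((2 : ℤ) : ℝ) * (Real.sin (η / 2) * Real.cos (η / 2)) = _
  push_cast
  ring

theorem re9_eB : re9 (px9 l η X Y Z w) eB =
    Real.cos (η / 2) ^ 2 - Real.sin (η / 2) ^ 2 := by
  show Real.cos (η / 2) ^ 2 + ((-1 : ℤ) : ℝ) * Real.sin (η / 2) ^ 2 = _
  push_cast
  ring

theorem re9_eo : re9 (px9 l η X Y Z w) eo =
    Real.sin (η / 2) ^ 2 + Real.cos (η / 2) ^ 2 := by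
  show Real.cos (η / 2) ^ 2 + Real.sin (η / 2) ^ 2 = _
  ring

theorem v_cE : CE.v (px9 l η X Y Z w) cE = En (Real.sin (η / 2)) (Real.cos (η / 2)) := by
  rw [En_eq]
  apply Complex.ext
  · show re9 _ eB = _
    rw [re9_eB]
    simp only [sub_re, mul_re, ofReal_re, ofReal_im, I_re, I_im]
    ring
  · show ((-1 : ℤ) : ℝ) * re9 _ eA = _
    rw [re9_eA]
    simp only [sub_im, mul_im, ofReal_re, ofReal_im, I_re, I_im]
    push_cast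
    ring

theorem v_bp (P Q : List (List ℤ)) : CE.v (px9 l η X Y Z w) ⟨Ex.bp P, Ex.bp Q⟩ =
    ⟨ev2 (X.re - 1) X.im P, ev2 (X.re - 1) X.im Q⟩ := rfl

theorem v_cSg : CE.v (px9 l η X Y Z w) cSg =
    sgm (Real.sin (η / 2)) X ((Real.sin (η / 2) : ℂ) * (Y / X)) := by
  rw [cSg, CE.v_add, CE.v_rm, re9_1, v_cP, v_bp, sgm]
  congr 2
  apply Complex.ext
  · simp only [ev2, ev1, sub_re, mul_re, re_ofNat, im_ofNat, one_re]
    push_cast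
    ring
  · simp only [ev2, ev1, sub_im, mul_im, re_ofNat, im_ofNat, one_im]
    push_cast
    ring

theorem v_cOm : CE.v (px9 l η X Y Z w) cOm =
    omg (Real.sin (η / 2)) X ((Real.sin (η / 2) : ℂ) * (Y / X)) := by
  rw [cOm, CE.v_add, CE.v_rm, re9_1, v_cP, v_bp, omg]
  congr 1
  have e : (⟨ev2 (X.re - 1) X.im [[0], [2]], ev2 (X.re - 1) X.im [[0, 2]]⟩ : ℂ) =
      2 * (X - 1) := by
    apply Complex.ext
    · simp only [ev2, ev1, sub_re, mul_re, re_ofNat, im_ofNat, one_re]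
      push_cast
      ring
    · simp only [ev2, ev1, sub_re, sub_im, mul_im, re_ofNat, im_ofNat, one_re, one_im]
      push_cast
      ring
  rw [e]
  ring

theorem v_cKp : CE.v (px9 l η X Y Z w) cKp =
    kpp (Real.sin (η / 2)) X ((Real.sin (η / 2) : ℂ) * (Y / X))
      ((Real.sin (η / 2) : ℂ) ^ 2 * (Z / X - (Y / X) ^ 2)) := by
  rw [cKp, CE.v_add, CE.v_rm, CE.v_add, CE.v_sc, CE.v_sc, CE.v_mul, v_cP, v_cR, v_bp, kpp]
  have e : (⟨ev2 (X.re - 1) X.im [[-3, 0, 4], [-8], [-4]],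
      ev2 (X.re - 1) X.im [[0, -8], [0, -8]]⟩ : ℂ) = 1 - 4 * X ^ 2 := by
    apply Complex.ext
    · simp only [ev2, ev1, pow_two, sub_re, mul_re, mul_im, re_ofNat, im_ofNat, one_re]
      push_cast
      ring
    · simp only [ev2, ev1, pow_two, sub_im, mul_re, mul_im, re_ofNat, im_ofNat, one_im]
      push_cast
      ring
  have e2 : re9 (px9 l η X Y Z w) (Ex.pow (Ex.va 1) 2) = Real.sin (η / 2) ^ 2 := rfl
  rw [e, e2]
  push_cast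
  ring

theorem v_cNu : CE.v (px9 l η X Y Z w) cNu =
    nuu (Real.sin (η / 2)) X ((Real.sin (η / 2) : ℂ) * (Y / X))
      ((Real.sin (η / 2) : ℂ) ^ 2 * (Z / X - (Y / X) ^ 2)) := by
  rw [cNu, CE.v_add, CE.v_rm, CE.v_add, CE.v_rm, CE.v_mul, CE.v_sc, CE.v_add, CE.v_mul, v_cP,
    v_cR, v_bp, v_bp, nuu_eq]
  have e : (⟨ev2 (X.re - 1) X.im [[0, 0, -8], [4], [8]],
      ev2 (X.re - 1) X.im [[0, 4], [0, 16]]⟩ : ℂ) = 4 * ((2 * X - 1) * (X - 1)) := by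
    apply Complex.ext
    · simp only [ev2, ev1, sub_re, sub_im, mul_re, mul_im, re_ofNat, im_ofNat, one_re, one_im]
      push_cast
      ring
    · simp only [ev2, ev1, sub_re, sub_im, mul_re, mul_im, re_ofNat, im_ofNat, one_re, one_im]
      push_cast
      ring
  have e' : (⟨ev2 (X.re - 1) X.im [[6], [12]],
      ev2 (X.re - 1) X.im [[0, 12]]⟩ : ℂ) = 6 * (2 * X - 1) := by
    apply Complex.ext
    · simp only [ev2, ev1, sub_re, sub_im, mul_re, mul_im, re_ofNat, im_ofNat, one_re, one_im]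
      push_cast
      ring
    · simp only [ev2, ev1, sub_re, sub_im, mul_re, mul_im, re_ofNat, im_ofNat, one_re, one_im]
      push_cast
      ring
  have e2 : re9 (px9 l η X Y Z w) (Ex.pow (Ex.va 1) 2) = Real.sin (η / 2) ^ 2 := rfl
  rw [e, e', e2, re9_1]
  push_cast
  ring

/-- the value of `v` at the point -/
noncomputable def vpt (g0 g1 d η : ℝ) (X Y Z : ℂ) : ℂ :=
  vv g0 g1 d (Real.sin (η / 2)) (Real.cos (η / 2)) X ((Real.sin (η / 2) : ℂ) * (Y / X))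
    ((Real.sin (η / 2) : ℂ) ^ 2 * (Z / X - (Y / X) ^ 2))

theorem sin_half (η : ℝ) : Real.sin η = 2 * Real.sin (η / 2) * Real.cos (η / 2) := by
  rw [← Real.sin_two_mul]
  congr 1
  ring

theorem cos_half (η : ℝ) : Real.cos η = Real.cos (η / 2) ^ 2 - Real.sin (η / 2) ^ 2 := by
  rw [← Real.cos_two_mul']
  congr 1
  ring

variable {N Gm C0 Al Be sg : ℤ} {gam c0 a b g0 g1 d : ℝ}

theorem v_cWW (h1 : (Gm : ℝ) = N * gam) (h3 : (Al : ℝ) = N * a) :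
    CE.v (px9 l η X Y Z w) (cWW N Gm Al sg) = (N : ℂ) * WW gam a (sg * l) (Real.sin (η / 2)) X
      ((Real.sin (η / 2) : ℂ) * (Y / X)) w := by
  rw [cWW, CE.v_add, CE.v_sc, CE.v_add, CE.v_sc, CE.v_rm, v_cOm, v_cV, v_cSg]
  have e : re9 (px9 l η X Y Z w) (Ex.sc (sg * Al) (Ex.va 0)) = N * (sg * l * a) := by
    show ((sg * Al : ℤ) : ℝ) * l = _
    push_cast
    rw [h3]
    ring
  have h1' : (Gm : ℂ) = (N : ℂ) * (gam : ℂ) := by exact_mod_cast congrArg (fun t : ℝ => (t : ℂ)) h1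
  rw [e, h1', WW]
  push_cast
  ring

theorem re9_eKK (h2 : (C0 : ℝ) = N * c0) (h3 : (Al : ℝ) = N * a) (h4 : (Be : ℝ) = N * b) :
    re9 (px9 l η X Y Z w) (eKK C0 Al Be sg) = N * (c0 + (sg * l) * (b - a)) := by
  show (C0 : ℝ) + ((sg * (Be - Al) : ℤ) : ℝ) * l = _
  push_cast
  rw [h2, h3, h4]
  ring

/-- **the loss** as an expression -/
theorem re9_eT9 (h1 : (Gm : ℝ) = N * gam) (h2 : (C0 : ℝ) = N * c0) (h3 : (Al : ℝ) = N * a)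
    (h4 : (Be : ℝ) = N * b) :
    re9 (px9 l η X Y Z (vpt g0 g1 d η X Y Z)) (eT9 N Gm C0 Al Be sg) =
      (N : ℝ) ^ 2 * ‖Fv gam c0 a b g0 g1 d (sg * l) (mX X Y (Real.sin η) (Real.cos η))
        (tX X Y Z (Real.sin η) (Real.cos η)) - e0 (Real.sin η) (Real.cos η)‖ ^ 2 := by
  have hSC : Real.sin (η / 2) ^ 2 + Real.cos (η / 2) ^ 2 = 1 := Real.sin_sq_add_cos_sq _
  have hT := ring_T (gam := gam) (c0 := c0) (a := a) (b := b) (g0 := g0) (g1 := g1) (d := d)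
    (l := sg * l) hSC (X := X) (Y := Y) (Z := Z) rfl rfl
  rw [sin_half η, cos_half η, hT]
  have hW := v_cWW (sg := sg) l η X Y Z (vpt g0 g1 d η X Y Z) h1 h3
  have hK := re9_eKK (sg := sg) l η X Y Z (vpt g0 g1 d η X Y Z) h2 h3 h4
  obtain ⟨W, hWd⟩ : ∃ W, W = WW gam a (sg * l) (Real.sin (η / 2)) X
      ((Real.sin (η / 2) : ℂ) * (Y / X)) (vpt g0 g1 d η X Y Z) := ⟨_, rfl⟩
  have hWd' : WW gam a (sg * l) (Real.sin (η / 2)) X ((Real.sin (η / 2) : ℂ) * (Y / X))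
      (vv g0 g1 d (Real.sin (η / 2)) (Real.cos (η / 2)) X ((Real.sin (η / 2) : ℂ) * (Y / X))
        ((Real.sin (η / 2) : ℂ) ^ 2 * (Z / X - (Y / X) ^ 2))) = W := hWd.symm
  rw [← hWd] at hW
  rw [hWd']
  have hr : re9 (px9 l η X Y Z (vpt g0 g1 d η X Y Z)) (cWW N Gm Al sg).r = N * W.re := by
    have := congrArg Complex.re hW
    simpa [CE.v, mul_re] using this
  have hi : re9 (px9 l η X Y Z (vpt g0 g1 d η X Y Z)) (cWW N Gm Al sg).i = N * W.im := by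
    have := congrArg Complex.im hW
    simpa [CE.v, mul_im] using this
  have hA := re9_eA l η X Y Z (vpt g0 g1 d η X Y Z)
  have hB := re9_eB l η X Y Z (vpt g0 g1 d η X Y Z)
  have ho := re9_eo l η X Y Z (vpt g0 g1 d η X Y Z)
  have h2' := re9_2 l η X Y Z (vpt g0 g1 d η X Y Z)
  simp only [eT9, cSq, re9] at hA hB ho h2' hK hr hi ⊢
  rw [hA, hB, ho, hK, hr, hi]
  simp only [px9, Pool.Agent.Helper69.EK6.px]
  unfold Tw
  push_cast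
  rw [h1]
  ring

/-- the constraint of `v` -/
theorem v_cCV {n0 nd ng0 ng1 : ℤ} (hd : 0 ≤ d) (k1 : (nd : ℝ) = n0 * d)
    (k2 : (ng0 : ℝ) = n0 * g0) (k3 : (ng1 : ℝ) = n0 * g1) :
    CE.v (px9 l η X Y Z (vpt g0 g1 d η X Y Z)) (cCV n0 nd ng0 ng1) = 0 := by
  have hSC : Real.sin (η / 2) ^ 2 + Real.cos (η / 2) ^ 2 = 1 := Real.sin_sq_add_cos_sq _
  have hv := vv_con (g0 := g0) (g1 := g1) (S := Real.sin (η / 2)) (C := Real.cos (η / 2)) hd X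
    ((Real.sin (η / 2) : ℂ) * (Y / X)) ((Real.sin (η / 2) : ℂ) ^ 2 * (Z / X - (Y / X) ^ 2))
  have hvp : vv g0 g1 d (Real.sin (η / 2)) (Real.cos (η / 2)) X
      ((Real.sin (η / 2) : ℂ) * (Y / X)) ((Real.sin (η / 2) : ℂ) ^ 2 * (Z / X - (Y / X) ^ 2)) =
      vpt g0 g1 d η X Y Z := rfl
  rw [hvp] at hv
  rw [cCV, CE.v_add, CE.v_rm, CE.v_add, CE.v_sc, CE.v_mI, CE.v_rm, CE.v_mul, CE.v_sc, CE.v_rm,
    CE.v_mul, CE.v_cj, v_cE, v_cNu, v_cSg, v_cV]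
  have e1 : re9 (px9 l η X Y Z (vpt g0 g1 d η X Y Z)) (Ex.add (Ex.sc n0 (Ex.pow eo 2))
      (Ex.sc (16 * nd) (Ex.mul (Ex.pow (Ex.va 2) 2) (cSq cSg)))) =
      n0 * (1 + 16 * d * Real.cos (η / 2) ^ 2 * ‖sgm (Real.sin (η / 2)) X
        ((Real.sin (η / 2) : ℂ) * (Y / X))‖ ^ 2) := by
    show (n0 : ℝ) * re9 _ eo ^ 2 + ((16 * nd : ℤ) : ℝ) * (Real.cos (η / 2) ^ 2 *
      re9 _ (cSq cSg)) = _
    rw [re9_eo, hSC, re9_cSq, v_cSg]
    push_cast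
    rw [k1]
    ring
  have e2 : re9 (px9 l η X Y Z (vpt g0 g1 d η X Y Z)) (Ex.pow (Ex.va 2) 2) =
      Real.cos (η / 2) ^ 2 := rfl
  have k2' : (ng0 : ℂ) = (n0 : ℂ) * (g0 : ℂ) := by
    exact_mod_cast congrArg (fun t : ℝ => (t : ℂ)) k2
  have k3' : (ng1 : ℂ) = (n0 : ℂ) * (g1 : ℂ) := by
    exact_mod_cast congrArg (fun t : ℝ => (t : ℂ)) k3
  rw [e1, e2, re9_2]
  push_cast at hv ⊢
  rw [k2', k3']
  linear_combination (n0 : ℂ) * hv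

theorem re9_cCV {n0 nd ng0 ng1 : ℤ} (hd : 0 ≤ d) (k1 : (nd : ℝ) = n0 * d)
    (k2 : (ng0 : ℝ) = n0 * g0) (k3 : (ng1 : ℝ) = n0 * g1) :
    re9 (px9 l η X Y Z (vpt g0 g1 d η X Y Z)) (cCV n0 nd ng0 ng1).r = 0 ∧
    re9 (px9 l η X Y Z (vpt g0 g1 d η X Y Z)) (cCV n0 nd ng0 ng1).i = 0 := by
  have h := v_cCV l η X Y Z hd k1 k2 k3
  exact ⟨congrArg Complex.re h, congrArg Complex.im h⟩

/-- Kraus as an expression -/
theorem re9_eKr (h0 : 0 ≤ η) (h1 : η ≤ π / 2)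
    (hk : ‖tX X Y Z (Real.sin η) (Real.cos η)‖ ≤ 6) :
    0 ≤ re9 (px9 l η X Y Z w) eKr := by
  have hSC : Real.sin (η / 2) ^ 2 + Real.cos (η / 2) ^ 2 = 1 := Real.sin_sq_add_cos_sq _
  have hpi := Real.pi_pos
  have hS : 0 ≤ Real.sin (η / 2) :=
    Real.sin_nonneg_of_nonneg_of_le_pi (by linarith) (by linarith)
  have hle : Real.sin (η / 2) ≤ Real.cos (η / 2) := by
    rw [← Real.cos_pi_div_two_sub]
    exact Real.cos_le_cos_of_nonneg_of_le_pi (by linarith) (by linarith) (by linarith)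
  rw [sin_half η, cos_half η] at hk
  have h := ring_kraus hSC hS hle (X := X) (Y := Y) (Z := Z) rfl rfl hk
  have e : re9 (px9 l η X Y Z w) eKr = 9 * (Real.cos (η / 2) ^ 4 +
      4 * (Real.sin (η / 2) ^ 2 * Real.cos (η / 2) ^ 2) + 11 * Real.sin (η / 2) ^ 4) -
      16 * ‖kpp (Real.sin (η / 2)) X ((Real.sin (η / 2) : ℂ) * (Y / X))
        ((Real.sin (η / 2) : ℂ) ^ 2 * (Z / X - (Y / X) ^ 2))‖ ^ 2 := by
    show ((9 : ℤ) : ℝ) * (Real.cos (η / 2) ^ 4 + (((4 : ℤ) : ℝ) *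
      (Real.sin (η / 2) ^ 2 * Real.cos (η / 2) ^ 2) + ((11 : ℤ) : ℝ) * Real.sin (η / 2) ^ 4)) +
      ((-16 : ℤ) : ℝ) * re9 _ (cSq cKp) = _
    rw [re9_cSq, v_cKp]
    push_cast
    ring
  rw [e]
  exact h

end val

end Pool.Agent.Helper20.EK7
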